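import Mathlib

set_option autoImplicit false
set_option linter.unusedVariables false
set_option linter.unusedSectionVars false

/-! The Erdos-Selfridge-Beck criterion for Breaker in the (a:b) game. -/

namespace Pool.Agent.Y418.BG.Breaker

open Finset

variable {E : Type*} [DecidableEq E]

/-- weight of a winning set -/
noncomputable def w (g : ℝ) (X Y A : Finset E) : ℝ :=
  if Disjoint A Y then (1 / g) ^ ((A \ X).card) else 0

/-- total weight -/
noncomputable def psi (g : ℝ) (F : Finset (Finset E)) (X Y : Finset E) : ℝ :=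
  ∑ A ∈ F, w g X Y A

/-- weight at a point -/
noncomputable def psi1 (g : ℝ) (F : Finset (Finset E)) (X Y : Finset E) (z : E) : ℝ :=
  ∑ A ∈ F, if z ∈ A then w g X Y A else 0

variable {g : ℝ} {F : Finset (Finset E)}

lemma w_nonneg (hg : 0 < g) (X Y A : Finset E) : 0 ≤ w g X Y A := by
  unfold w; split_ifs <;> positivity

lemma psi_nonneg (hg : 0 < g) (X Y : Finset E) : 0 ≤ psi g F X Y :=
  Finset.sum_nonneg (fun _ _ => w_nonneg hg _ _ _)

lemma psi1_nonneg (hg : 0 < g) (X Y : Finset E) (z : E) : 0 ≤ psi1 g F X Y z := by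
  unfold psi1
  apply Finset.sum_nonneg
  intro A _
  split_ifs
  · exact w_nonneg hg _ _ _
  · exact le_refl _

lemma w_insert (X Y A : Finset E) (y : E) :
    w g X (insert y Y) A = w g X Y A - if y ∈ A then w g X Y A else 0 := by
  unfold w
  rw [if_congr disjoint_insert_right rfl rfl]
  by_cases hy : y ∈ A <;> by_cases hd : Disjoint A Y <;> simp [hy, hd]

lemma psi_insert (X Y : Finset E) (y : E) :
    psi g F X (insert y Y) = psi g F X Y - psi1 g F X Y y := by
  unfold psi psi1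
  rw [← Finset.sum_sub_distrib]
  exact Finset.sum_congr rfl (fun A _ => w_insert X Y A y)

lemma w_insert_le (hg : 0 < g) (X Y A : Finset E) (y : E) :
    w g X (insert y Y) A ≤ w g X Y A := by
  rw [w_insert]
  have := w_nonneg hg X Y A
  split_ifs <;> linarith

lemma psi1_insert_le (hg : 0 < g) (X Y : Finset E) (y z : E) :
    psi1 g F X (insert y Y) z ≤ psi1 g F X Y z := by
  unfold psi1
  apply Finset.sum_le_sum
  intro A _
  split_ifs
  · exact w_insert_le hg _ _ _ _
  · exact le_refl _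

lemma psi_union_le (hg : 0 < g) (X Y R : Finset E) : psi g F X (Y ∪ R) ≤ psi g F X Y := by
  unfold psi
  apply Finset.sum_le_sum
  intro A _
  unfold w
  by_cases h : Disjoint A (Y ∪ R)
  · have h1 : Disjoint A Y := (disjoint_union_right.mp h).1
    rw [if_pos h, if_pos h1]
  · rw [if_neg h]
    split_ifs
    · positivity
    · exact le_refl _

/-- the greedy choice of `k` points -/
lemma greedy (hg : 0 < g) (X Y Fr : Finset E) : ∀ k ≤ Fr.card, ∃ R ⊆ Fr, R.card = k ∧
    ∀ z ∈ Fr \ R, (k : ℝ) * psi1 g F X (Y ∪ R) z ≤ psi g F X Y - psi g F X (Y ∪ R) := by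
  intro k
  induction k with
  | zero =>
    intro _
    refine ⟨∅, Finset.empty_subset _, rfl, ?_⟩
    intro z _
    simp
  | succ k ih =>
    intro hk
    obtain ⟨R, hR, hRc, hz⟩ := ih (by omega)
    have hne : (Fr \ R).Nonempty := by
      rw [← Finset.card_pos, Finset.card_sdiff_of_subset hR]
      omega
    obtain ⟨y, hy, hymax⟩ := Finset.exists_max_image (Fr \ R) (fun z => psi1 g F X (Y ∪ R) z) hne
    rw [mem_sdiff] at hy
    refine ⟨insert y R, Finset.insert_subset hy.1 hR, ?_, ?_⟩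
    · rw [Finset.card_insert_of_notMem hy.2, hRc]
    · intro z hz'
      have hzR : z ∈ Fr \ R := by
        rw [mem_sdiff, mem_insert, not_or] at hz'
        exact mem_sdiff.mpr ⟨hz'.1, hz'.2.2⟩
      have h1 := hz z hzR
      have h2 := hymax z hzR
      have e1 : Y ∪ insert y R = insert y (Y ∪ R) := by
        ext t; simp only [mem_union, mem_insert]; tauto
      rw [e1, psi_insert]
      have h3 := psi1_insert_le (F := F) hg X (Y ∪ R) y z
      have hk0 : (0 : ℝ) ≤ k := Nat.cast_nonneg k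
      push_cast
      have h4 : ((k : ℝ) + 1) * psi1 g F X (insert y (Y ∪ R)) z
          ≤ ((k : ℝ) + 1) * psi1 g F X (Y ∪ R) z := mul_le_mul_of_nonneg_left h3 (by linarith)
      linarith

/-- Breaker has a move after which no move of Maker increases the weight. -/
lemma exists_reply {a b : ℕ} (ha : 1 ≤ a) (X Y Fr : Finset E) (hX : Disjoint Fr X) :
    ∃ R ⊆ Fr, R.card = min b Fr.card ∧ ∀ Q ⊆ Fr \ R, Q.card ≤ a →
      psi ((1 + b : ℝ) ^ (1 / (a : ℝ))) F (X ∪ Q) (Y ∪ R)
        ≤ psi ((1 + b : ℝ) ^ (1 / (a : ℝ))) F X Y := by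
  set g : ℝ := (1 + b : ℝ) ^ (1 / (a : ℝ)) with hgd
  have hB : (0 : ℝ) < 1 + b := by positivity
  have hg : 0 < g := Real.rpow_pos_of_pos hB _
  by_cases hb : Fr.card ≤ b
  · refine ⟨Fr, le_refl _, by rw [min_eq_right hb], ?_⟩
    intro Q hQ _
    rw [Finset.sdiff_self, Finset.subset_empty] at hQ
    subst hQ
    rw [Finset.union_empty]
    exact psi_union_le hg _ _ _
  · push Not at hb
    obtain ⟨R, hR, hRc, hz⟩ := greedy (F := F) hg X Y Fr b hb.le
    refine ⟨R, hR, by rw [hRc, min_eq_left hb.le], ?_⟩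
    intro Q hQ hQa
    have haR : (0 : ℝ) < a := by exact_mod_cast ha
    have hb0 : (0 : ℝ) ≤ b := Nat.cast_nonneg b
    -- the weights after the move of Maker
    have hw : ∀ A ∈ F, w g (X ∪ Q) (Y ∪ R) A ≤ w g X (Y ∪ R) A
        + b / a * ∑ z ∈ Q, (if z ∈ A then w g X (Y ∪ R) A else 0) := by
      intro A _
      unfold w
      by_cases hd : Disjoint A (Y ∪ R)
      · simp only [hd, if_true]
        have e1 : A \ (X ∪ Q) = (A \ X) \ (Q.filter (· ∈ A)) := by
          ext t; simp only [mem_sdiff, mem_union, mem_filter]; tauto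
        have hsub : Q.filter (· ∈ A) ⊆ A \ X := by
          intro t ht
          rw [mem_filter] at ht
          rw [mem_sdiff]
          refine ⟨ht.2, ?_⟩
          have := (Finset.mem_sdiff.mp (hQ ht.1)).1
          exact Finset.disjoint_left.mp hX this
        set k := (Q.filter (· ∈ A)).card with hk
        have hkA : k ≤ (A \ X).card := Finset.card_le_card hsub
        have hka : k ≤ a := (Finset.card_filter_le _ _).trans hQa
        rw [e1, Finset.card_sdiff_of_subset hsub, ← hk, ← Finset.sum_filter, Finset.sum_const,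
          nsmul_eq_mul, ← hk]
        have e2 : (1 / g) ^ ((A \ X).card - k) = g ^ k * (1 / g) ^ ((A \ X).card) := by
          have : (1 / g) ^ ((A \ X).card) = (1 / g) ^ ((A \ X).card - k) * (1 / g) ^ k := by
            rw [← pow_add]; congr 1; omega
          rw [this, one_div, inv_pow, inv_pow]
          field_simp
        have e3 : g ^ k ≤ 1 + b / a * k := by
          have e4 : g ^ k = (1 + b : ℝ) ^ ((k : ℝ) / a) := by
            rw [hgd, ← Real.rpow_natCast, ← Real.rpow_mul hB.le]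
            congr 1
            ring
          rw [e4]
          have hka' : (k : ℝ) / a ≤ 1 := by
            rw [div_le_one haR]; exact_mod_cast hka
          have := rpow_one_add_le_one_add_mul_self (s := (b : ℝ)) (by linarith)
            (p := (k : ℝ) / a) (by positivity) hka'
          refine this.trans (le_of_eq ?_)
          ring
        rw [e2]
        have h0 : 0 ≤ (1 / g) ^ ((A \ X).card) := by positivity
        calc g ^ k * (1 / g) ^ ((A \ X).card) ≤ (1 + b / a * k) * (1 / g) ^ ((A \ X).card) :=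
              mul_le_mul_of_nonneg_right e3 h0
          _ = _ := by ring
      · simp [hd]
    have hsum : psi g F (X ∪ Q) (Y ∪ R) ≤ psi g F X (Y ∪ R)
        + b / a * ∑ z ∈ Q, psi1 g F X (Y ∪ R) z := by
      unfold psi psi1
      rw [Finset.sum_comm (s := Q), Finset.mul_sum, ← Finset.sum_add_distrib]
      exact Finset.sum_le_sum hw
    have hd0 : 0 ≤ psi g F X Y - psi g F X (Y ∪ R) := by
      have := psi_union_le (F := F) hg X Y R
      linarith
    have hQs : b * ∑ z ∈ Q, psi1 g F X (Y ∪ R) z ≤ a * (psi g F X Y - psi g F X (Y ∪ R)) := by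
      rw [Finset.mul_sum]
      calc ∑ z ∈ Q, (b : ℝ) * psi1 g F X (Y ∪ R) z
          ≤ ∑ z ∈ Q, (psi g F X Y - psi g F X (Y ∪ R)) :=
            Finset.sum_le_sum (fun z hz' => hz z (hQ hz'))
        _ = (Q.card : ℝ) * (psi g F X Y - psi g F X (Y ∪ R)) := by
            rw [Finset.sum_const, nsmul_eq_mul]
        _ ≤ a * (psi g F X Y - psi g F X (Y ∪ R)) := by
            apply mul_le_mul_of_nonneg_right _ hd0
            exact_mod_cast hQa
    have h5 : b / a * ∑ z ∈ Q, psi1 g F X (Y ∪ R) z ≤ psi g F X Y - psi g F X (Y ∪ R) := by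
      rw [div_mul_eq_mul_div, div_le_iff₀ haR]
      linarith
    linarith

/-- the weight after the first move of Maker -/
lemma psi_first {a b : ℕ} (ha : 1 ≤ a) (Q : Finset E) (hQ : Q.card ≤ a) :
    psi ((1 + b : ℝ) ^ (1 / (a : ℝ))) F Q ∅
      ≤ (1 + b) * psi ((1 + b : ℝ) ^ (1 / (a : ℝ))) F ∅ ∅ := by
  set g : ℝ := (1 + b : ℝ) ^ (1 / (a : ℝ)) with hgd
  have hB : (0 : ℝ) < 1 + b := by positivity
  have hb0 : (0 : ℝ) ≤ b := Nat.cast_nonneg b
  have hg : 0 < g := Real.rpow_pos_of_pos hB _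
  have haR : (0 : ℝ) < a := by exact_mod_cast ha
  have hg1 : 1 ≤ g := Real.one_le_rpow (by linarith) (by positivity)
  have hga : g ^ a = 1 + b := by
    rw [hgd, ← Real.rpow_natCast, ← Real.rpow_mul hB.le, one_div, inv_mul_cancel₀ haR.ne',
      Real.rpow_one]
  unfold psi
  rw [Finset.mul_sum]
  apply Finset.sum_le_sum
  intro A _
  unfold w
  simp only [disjoint_empty_right, if_true, sdiff_empty]
  rw [← hga]
  have h1 : A.card ≤ (A \ Q).card + a := by
    have := Finset.card_le_card_sdiff_add_card (s := A) (t := Q)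
    omega
  have h2 : (1 / g) ^ ((A \ Q).card + a) ≤ (1 / g) ^ A.card := by
    apply pow_le_pow_of_le_one (by positivity) _ h1
    rw [div_le_one hg]; exact hg1
  calc (1 / g) ^ (A \ Q).card = g ^ a * (1 / g) ^ ((A \ Q).card + a) := by
        rw [pow_add, one_div, inv_pow, inv_pow]; field_simp
    _ ≤ g ^ a * (1 / g) ^ A.card := mul_le_mul_of_nonneg_left h2 (by positivity)

lemma psi_ge_one {g : ℝ} {X Y A : Finset E} (hg : 0 < g) (hA : A ∈ F) (hd : Disjoint A Y)
    (hAX : A ⊆ X) : 1 ≤ psi g F X Y := by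
  have h1 : w g X Y A = 1 := by
    unfold w
    rw [if_pos hd, Finset.sdiff_eq_empty_iff_subset.mpr hAX]
    simp
  rw [← h1]
  exact Finset.single_le_sum (f := fun A => w g X Y A) (fun A _ => w_nonneg hg X Y A) hA

/-- Numerical part: for large `N` the total weight is small. -/
lemma eventually_small {a b r : ℕ} (ha : 1 ≤ a) (hb : 1 ≤ b) (hr : 2 ≤ r) {ε : ℝ} (hε : 0 < ε) :
    ∀ᶠ N : ℕ in Filter.atTop, ∀ q : ℕ,
      (1 + ε) * ((a : ℝ) * (r.factorial : ℝ) * Real.logb (1 + b) N) ^ (1 / ((r : ℝ) - 1)) ≤ q →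
      (1 + b : ℝ) * ((N.choose q : ℝ) * (1 / ((1 + b : ℝ) ^ (1 / (a : ℝ)))) ^ (q.choose r)) < 1 := by
  have haR : (1 : ℝ) ≤ a := by exact_mod_cast ha
  have hbR : (1 : ℝ) ≤ b := by exact_mod_cast hb
  have hB1 : (1 : ℝ) < 1 + b := by linarith
  have hB0 : (0 : ℝ) < 1 + b := by linarith
  have hrR : (2 : ℝ) ≤ r := by exact_mod_cast hr
  have hr1 : (0 : ℝ) < (r : ℝ) - 1 := by linarith
  have hr1' : (((r - 1 : ℕ)) : ℝ) = (r : ℝ) - 1 := by
    rw [Nat.cast_sub (by omega)]; norm_num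
  have hfac : (0 : ℝ) < (r.factorial : ℝ) := by exact_mod_cast Nat.factorial_pos _
  have har : 0 < (a : ℝ) * (r.factorial : ℝ) := by positivity
  have hL : Filter.Tendsto (fun N : ℕ => Real.logb (1 + b : ℝ) N) Filter.atTop Filter.atTop :=
    (Real.tendsto_logb_atTop hB1).comp tendsto_natCast_atTop_atTop
  have hv : Filter.Tendsto (fun N : ℕ => (1 + ε) *
      ((a : ℝ) * (r.factorial : ℝ) * Real.logb (1 + b) N) ^ (1 / ((r : ℝ) - 1)))
      Filter.atTop Filter.atTop :=
    ((tendsto_rpow_atTop (by positivity)).comp (hL.const_mul_atTop har)).const_mul_atTop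
      (by linarith)
  set K1 : ℝ := 2 * (r * (r - 1)) * (1 + ε) / ε with hK1
  set K2 : ℝ := (a : ℝ) * (r.factorial : ℝ) * 2 * (1 + ε) / ε with hK2
  filter_upwards [hv.eventually_gt_atTop K1, hv.eventually_gt_atTop K2,
    hv.eventually_ge_atTop r, Filter.eventually_ge_atTop 1] with N h1 h2 h3 h4
  intro q hq
  have hN1 : (1 : ℝ) ≤ N := by exact_mod_cast h4
  have hN0 : (0 : ℝ) < N := by linarith
  set L := Real.logb (1 + b : ℝ) N with hLd
  have hL0 : 0 ≤ L := Real.logb_nonneg hB1 hN1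
  set v : ℝ := ((a : ℝ) * (r.factorial : ℝ) * L) ^ (1 / ((r : ℝ) - 1)) with hvd
  have hv0 : 0 ≤ v := Real.rpow_nonneg (by positivity) _
  have hvpow : v ^ (r - 1) = (a : ℝ) * (r.factorial : ℝ) * L := by
    rw [hvd, ← Real.rpow_natCast, ← Real.rpow_mul (by positivity), hr1', one_div,
      inv_mul_cancel₀ hr1.ne', Real.rpow_one]
  have hqK1 : K1 < q := lt_of_lt_of_le h1 hq
  have hqK2 : K2 < q := lt_of_lt_of_le h2 hq
  have hqr : (r : ℝ) ≤ q := h3.trans hq
  have hqrN : r ≤ q := by exact_mod_cast hqr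
  have hq0 : (0 : ℝ) < q := by linarith
  have hq1 : (1 : ℝ) ≤ q := by linarith
  have h1ε : (0 : ℝ) < 1 + ε := by linarith
  -- a r! L ≤ q^(r-1)/(1+ε)
  have hLq : (1 + ε) * ((a : ℝ) * (r.factorial : ℝ) * L) ≤ (q : ℝ) ^ (r - 1) := by
    have e1 : ((1 + ε) * v) ^ (r - 1) ≤ (q : ℝ) ^ (r - 1) :=
      pow_le_pow_left₀ (by positivity) hq _
    rw [mul_pow, hvpow] at e1
    refine le_trans ?_ e1
    apply mul_le_mul_of_nonneg_right _ (by positivity)
    calc (1 + ε) = (1 + ε) ^ 1 := (pow_one _).symm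
      _ ≤ (1 + ε) ^ (r - 1) := pow_le_pow_right₀ (by linarith) (by omega)
  have hpow : (q : ℝ) * (q : ℝ) ^ (r - 1) = (q : ℝ) ^ r := by
    rw [← pow_succ']; congr 1; omega
  have hLq' : (a : ℝ) * (r.factorial : ℝ) * (q * L) ≤ (q : ℝ) ^ r / (1 + ε) := by
    rw [le_div_iff₀ h1ε, ← hpow]
    calc (a : ℝ) * (r.factorial : ℝ) * (q * L) * (1 + ε)
        = q * ((1 + ε) * ((a : ℝ) * (r.factorial : ℝ) * L)) := by ring
      _ ≤ q * (q : ℝ) ^ (r - 1) := mul_le_mul_of_nonneg_left hLq hq0.le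
  -- number of edges of a clique
  have hchoose : ((q : ℝ) - (r - 1)) ^ r ≤ (r.factorial : ℝ) * (q.choose r : ℝ) := by
    have e1 := Nat.pow_sub_le_descFactorial q r
    rw [Nat.descFactorial_eq_factorial_mul_choose] at e1
    have e2 : (((q + 1 - r : ℕ)) : ℝ) = (q : ℝ) - (r - 1) := by
      rw [Nat.cast_sub (by omega)]; push_cast; ring
    rw [← e2]
    exact_mod_cast e1
  have hbern : (q : ℝ) ^ r * (1 - r * (r - 1) / q) ≤ ((q : ℝ) - (r - 1)) ^ r := by
    have e1 := one_add_mul_le_pow (R := ℝ) (a := -((r - 1) / q)) (by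
      have : ((r : ℝ) - 1) / q ≤ 1 := by
        rw [div_le_one hq0]; linarith
      linarith) r
    have e2 : ((q : ℝ) - (r - 1)) ^ r = (q : ℝ) ^ r * (1 + -((r - 1) / q)) ^ r := by
      rw [← mul_pow]
      congr 1
      field_simp
      ring
    rw [e2]
    apply mul_le_mul_of_nonneg_left _ (by positivity)
    refine le_trans (le_of_eq ?_) e1
    ring
  have hkey : (a : ℝ) * (r.factorial : ℝ) + (q : ℝ) ^ r / (1 + ε)
      < (q : ℝ) ^ r * (1 - r * (r - 1) / q) := by
    have e1 : r * (r - 1) / (q : ℝ) ≤ ε / (2 * (1 + ε)) := by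
      rw [div_le_div_iff₀ hq0 (by positivity)]
      have : K1 * ε < q * ε := mul_lt_mul_of_pos_right hqK1 hε
      rw [hK1, div_mul_cancel₀ _ hε.ne'] at this
      nlinarith
    have e2 : (a : ℝ) * (r.factorial : ℝ) < (q : ℝ) ^ r * (ε / (2 * (1 + ε))) := by
      have e3 : (q : ℝ) ≤ (q : ℝ) ^ r := by
        calc (q : ℝ) = (q : ℝ) ^ 1 := (pow_one _).symm
          _ ≤ _ := pow_le_pow_right₀ hq1 (by omega)
      have e4 : (a : ℝ) * (r.factorial : ℝ) < q * (ε / (2 * (1 + ε))) := by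
        rw [← mul_div_assoc, lt_div_iff₀ (by positivity)]
        have : K2 * ε < q * ε := mul_lt_mul_of_pos_right hqK2 hε
        rw [hK2, div_mul_cancel₀ _ hε.ne'] at this
        linarith
      refine lt_of_lt_of_le e4 (mul_le_mul_of_nonneg_right e3 (by positivity))
    have e5 : (q : ℝ) ^ r * (r * (r - 1) / q) ≤ (q : ℝ) ^ r * (ε / (2 * (1 + ε))) :=
      mul_le_mul_of_nonneg_left e1 (by positivity)
    have e6 : (q : ℝ) ^ r / (1 + ε) + (q : ℝ) ^ r * (ε / (2 * (1 + ε)))
        + (q : ℝ) ^ r * (ε / (2 * (1 + ε))) = (q : ℝ) ^ r := by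
      field_simp
      ring
    have e7 : (q : ℝ) ^ r * (1 - r * (r - 1) / q) = (q : ℝ) ^ r - (q : ℝ) ^ r * (r * (r - 1) / q) := by
      ring
    rw [e7]
    linarith
  have hmain : (a : ℝ) * (1 + q * L) < (q.choose r : ℝ) := by
    have e1 : (r.factorial : ℝ) * ((a : ℝ) * (1 + q * L)) < (r.factorial : ℝ) * (q.choose r : ℝ) := by
      calc (r.factorial : ℝ) * ((a : ℝ) * (1 + q * L))
          = (a : ℝ) * (r.factorial : ℝ) + (a : ℝ) * (r.factorial : ℝ) * (q * L) := by ring
        _ ≤ (a : ℝ) * (r.factorial : ℝ) + (q : ℝ) ^ r / (1 + ε) := by linarith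
        _ < (q : ℝ) ^ r * (1 - r * (r - 1) / q) := hkey
        _ ≤ ((q : ℝ) - (r - 1)) ^ r := hbern
        _ ≤ _ := hchoose
    exact lt_of_mul_lt_mul_left e1 hfac.le
  -- conclusion
  have hNq : (N.choose q : ℝ) ≤ (1 + b : ℝ) ^ ((q : ℝ) * L) := by
    have e1 : (N.choose q : ℝ) ≤ (N : ℝ) ^ q := by exact_mod_cast Nat.choose_le_pow N q
    refine e1.trans (le_of_eq ?_)
    rw [mul_comm, Real.rpow_mul hB0.le, hLd, Real.rpow_logb hB0 (by linarith) hN0,
      Real.rpow_natCast]
  have hg : (1 / ((1 + b : ℝ) ^ (1 / (a : ℝ)))) ^ (q.choose r)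
      = (1 + b : ℝ) ^ (-((q.choose r : ℝ) / a)) := by
    rw [one_div, inv_pow, ← Real.rpow_natCast, ← Real.rpow_mul hB0.le, ← Real.rpow_neg hB0.le]
    congr 1
    ring
  rw [hg]
  have hpos : (0 : ℝ) < (1 + b : ℝ) ^ (-((q.choose r : ℝ) / a)) := Real.rpow_pos_of_pos hB0 _
  calc (1 + b : ℝ) * ((N.choose q : ℝ) * (1 + b : ℝ) ^ (-((q.choose r : ℝ) / a)))
      ≤ (1 + b : ℝ) * ((1 + b : ℝ) ^ ((q : ℝ) * L) * (1 + b : ℝ) ^ (-((q.choose r : ℝ) / a))) := by
        apply mul_le_mul_of_nonneg_left _ hB0.le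
        exact mul_le_mul_of_nonneg_right hNq hpos.le
    _ = (1 + b : ℝ) ^ (1 + (q : ℝ) * L + -((q.choose r : ℝ) / a)) := by
        rw [Real.rpow_add hB0, Real.rpow_add hB0, Real.rpow_one]; ring
    _ < (1 + b : ℝ) ^ (0 : ℝ) := by
        apply Real.rpow_lt_rpow_of_exponent_lt hB1
        have : 1 + (q : ℝ) * L < (q.choose r : ℝ) / a := by
          rw [lt_div_iff₀ (by linarith)]
          linarith
        linarith
    _ = 1 := Real.rpow_zero _

end Pool.Agent.Y418.BG.Breaker
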