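import Mathlib

set_option autoImplicit false
set_option linter.unusedVariables false
set_option linter.unusedSectionVars false
set_option linter.unusedSimpArgs false

/-! Potential criterion for the underdog in a biased game (one point against `b` points). -/

namespace Pool.Agent.Y418.BG.Crit

open Finset

/-- weight of a set `s` (with reduced part `a`) when Maker owns `X` and the points of `Y` are
blocked. -/
noncomputable def wt {E : Type*} [DecidableEq E] (b : ℕ) (X Y s a : Finset E) : ℝ :=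
  if Disjoint s Y then (1 / (1 + b : ℝ)) ^ ((a \ X).card) else 0

section basic
variable {E : Type*} [DecidableEq E] {b : ℕ}

lemma B_pos (b : ℕ) : (0 : ℝ) < 1 + b := by positivity

lemma wt_nonneg (X Y s a : Finset E) : 0 ≤ wt b X Y s a := by
  unfold wt; split_ifs <;> positivity

lemma key_in {X a : Finset E} {x : E} (hxX : x ∉ X) (hx : x ∈ a) :
    (1 / (1 + b : ℝ)) ^ ((a \ insert x X).card)
      = (1 + b : ℝ) * (1 / (1 + b : ℝ)) ^ ((a \ X).card) := by
  have h1 : a \ insert x X = (a \ X).erase x := by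
    ext z; simp only [mem_sdiff, mem_insert, mem_erase, not_or]; tauto
  have hmem : x ∈ a \ X := by simp [hx, hxX]
  have h2 : (a \ X).card = ((a \ X).erase x).card + 1 := by
    rw [card_erase_of_mem hmem]
    have : 0 < (a \ X).card := card_pos.mpr ⟨x, hmem⟩
    omega
  have hB := B_pos b
  rw [h1, h2, pow_succ]
  field_simp

lemma key_notin {X a : Finset E} {x : E} (hx : x ∉ a) :
    (1 / (1 + b : ℝ)) ^ ((a \ insert x X).card) = (1 / (1 + b : ℝ)) ^ ((a \ X).card) := by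
  have h1 : a \ insert x X = a \ X := by
    ext z; simp only [mem_sdiff, mem_insert, not_or]
    constructor
    · rintro ⟨a, b, c⟩; exact ⟨a, c⟩
    · rintro ⟨a, b⟩; refine ⟨a, ?_, b⟩; rintro rfl; exact hx a
  rw [h1]

lemma wt_new {X Y s a R : Finset E} {x : E} (hxX : x ∉ X) :
    wt b (insert x X) (Y ∪ R) s a =
      if Disjoint s R then (if x ∈ a then (1 + b : ℝ) * wt b X Y s a else wt b X Y s a) else 0 := by
  unfold wt
  rw [if_congr disjoint_union_right rfl rfl]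
  by_cases hR : Disjoint s R
  · by_cases hD : Disjoint s Y
    · simp only [hR, hD, and_self, if_true]
      split_ifs with hx
      · exact key_in hxX hx
      · exact key_notin hx
    · simp [hD]
  · simp [hR]

/-- the points of `R` in `s` counted with the weight `w` -/
lemma sum_ind_nonneg (R s : Finset E) {w : ℝ} (hw : 0 ≤ w) :
    0 ≤ ∑ y ∈ R, (if y ∈ s then w else 0) :=
  Finset.sum_nonneg (fun i _ => by split_ifs <;> simp [hw])

lemma sum_ind_ge {R s : Finset E} {w : ℝ} (hw : 0 ≤ w) (h : ¬ Disjoint s R) :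
    w ≤ ∑ y ∈ R, (if y ∈ s then w else 0) := by
  rw [Finset.not_disjoint_iff] at h
  obtain ⟨y, hys, hyR⟩ := h
  calc w = if y ∈ s then w else 0 := by rw [if_pos hys]
    _ ≤ _ := Finset.single_le_sum (f := fun y => if y ∈ s then w else 0)
        (fun i _ => by split_ifs <;> simp [hw]) hyR

lemma sum_ind_disj {R s : Finset E} {w : ℝ} (h : Disjoint s R) :
    ∑ y ∈ R, (if y ∈ s then w else 0) = 0 := by
  apply Finset.sum_eq_zero
  intro y hy
  rw [if_neg]
  exact fun hys => Finset.disjoint_left.mp h hys hy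

lemma sum_ind_eq (R s : Finset E) (w : ℝ) :
    ∑ y ∈ R, (if y ∈ s then w else 0) = ((R.filter (· ∈ s)).card : ℝ) * w := by
  rw [← Finset.sum_filter, Finset.sum_const, nsmul_eq_mul]

lemma wt_lower {X Y s R : Finset E} {x : E} (hxX : x ∉ X) :
    wt b X Y s s + b * (if x ∈ s then wt b X Y s s else 0)
      - ∑ y ∈ R, (if y ∈ s then wt b X Y s s else 0)
      - b * ∑ y ∈ R, (if x ∈ s ∧ y ∈ s then wt b X Y s s else 0)
      ≤ wt b (insert x X) (Y ∪ R) s s := by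
  rw [wt_new hxX]
  have h := wt_nonneg (b := b) X Y s s
  have hb : (0 : ℝ) ≤ b := Nat.cast_nonneg b
  by_cases hx : x ∈ s
  · simp only [hx, true_and, if_true]
    by_cases hR : Disjoint s R
    · rw [sum_ind_disj hR, if_pos hR]
      linarith
    · rw [if_neg hR]
      have h1 := sum_ind_ge h hR
      nlinarith
  · simp only [hx, false_and, if_false]
    by_cases hR : Disjoint s R
    · rw [sum_ind_disj hR, if_pos hR]
      simp
    · rw [if_neg hR]
      have h1 := sum_ind_ge h hR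
      simp only [Finset.sum_const_zero]
      linarith

lemma wt_lower' {X Y s R : Finset E} {x : E} (hxX : x ∉ X) :
    wt b X Y s s - ∑ y ∈ R, (if y ∈ s then wt b X Y s s else 0)
      ≤ wt b (insert x X) (Y ∪ R) s s := by
  rw [wt_new hxX]
  have h := wt_nonneg (b := b) X Y s s
  have hb : (0 : ℝ) ≤ b := Nat.cast_nonneg b
  by_cases hR : Disjoint s R
  · rw [sum_ind_disj hR, if_pos hR]
    split_ifs <;> nlinarith
  · rw [if_neg hR]
    have h1 := sum_ind_ge h hR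
    linarith

lemma wt_upper' {X Y s R : Finset E} {x : E} (hxX : x ∉ X) :
    wt b (insert x X) (Y ∪ R) s s
      ≤ wt b X Y s s + b * (if x ∈ s then wt b X Y s s else 0) := by
  rw [wt_new hxX]
  have h := wt_nonneg (b := b) X Y s s
  have hb : (0 : ℝ) ≤ b := Nat.cast_nonneg b
  split_ifs <;> nlinarith

lemma sum_pair_eq (R a : Finset E) (w : ℝ) :
    ∑ p ∈ R.offDiag, (if p.1 ∈ a ∧ p.2 ∈ a then w else 0)
      = (((R.filter (· ∈ a)).card : ℝ) * ((R.filter (· ∈ a)).card : ℝ)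
          - ((R.filter (· ∈ a)).card : ℝ)) * w := by
  rw [← Finset.sum_filter, Finset.sum_const, nsmul_eq_mul]
  congr 1
  have h : R.offDiag.filter (fun p => p.1 ∈ a ∧ p.2 ∈ a) = (R.filter (· ∈ a)).offDiag := by
    ext p
    simp only [mem_filter, mem_offDiag]
    tauto
  rw [h, Finset.offDiag_card]
  have hle : (R.filter (· ∈ a)).card ≤ (R.filter (· ∈ a)).card * (R.filter (· ∈ a)).card :=
    Nat.le_mul_self _
  rw [Nat.cast_sub hle]
  push_cast
  ring

lemma wt_upper {X Y s a R : Finset E} (has : a ⊆ s) {x : E} (hxX : x ∉ X) :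
    wt b (insert x X) (Y ∪ R) s a
      ≤ wt b X Y s a + b * (if x ∈ a then wt b X Y s a else 0)
        - ∑ y ∈ R, (if y ∈ a then wt b X Y s a else 0)
        + ∑ p ∈ R.offDiag, (if p.1 ∈ a ∧ p.2 ∈ a then wt b X Y s a else 0) := by
  rw [wt_new hxX]
  have h := wt_nonneg (b := b) X Y s a
  have hb : (0 : ℝ) ≤ b := Nat.cast_nonneg b
  rw [sum_ind_eq, sum_pair_eq]
  set k : ℝ := ((R.filter (· ∈ a)).card : ℝ) with hk
  have h2 : 0 ≤ (b : ℝ) * (if x ∈ a then wt b X Y s a else 0) := by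
    split_ifs
    · positivity
    · simp
  by_cases hR : Disjoint s R
  · have hk0 : k = 0 := by
      rw [hk]
      have : R.filter (· ∈ a) = ∅ := by
        rw [Finset.filter_eq_empty_iff]
        intro y hy hya
        exact Finset.disjoint_left.mp hR (has hya) hy
      rw [this]; simp
    rw [hk0, if_pos hR]
    split_ifs <;> linarith
  · rw [if_neg hR]
    have h3 : 0 ≤ (k - 1) ^ 2 * wt b X Y s a := mul_nonneg (sq_nonneg _) h
    nlinarith

lemma wt_mono {X Y s a a' : Finset E} (hab : a' ⊆ a) : wt b X Y s a ≤ wt b X Y s a' := by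
  unfold wt
  have hB := B_pos b
  split_ifs with h
  · apply pow_le_pow_of_le_one (by positivity)
    · rw [div_le_one hB]
      have : (0 : ℝ) ≤ b := Nat.cast_nonneg b
      linarith
    · exact card_le_card (sdiff_subset_sdiff hab (le_refl _))
  · exact le_refl _

end basic

/-- A family of winning sets `A φ` with a system of levels. -/
structure Sys (E Φ L : Type*) [DecidableEq E] [DecidableEq Φ] (b : ℕ) where
  A : Φ → Finset E
  mem : L → Finset Φ
  red : L → Φ → Finset E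
  K : Finset L
  base : L
  cap : L → ℝ
  e1 : ℝ
  e2 : ℝ
  lam : ℝ
  red_sub : ∀ κ φ, red κ φ ⊆ A φ
  red_base : ∀ φ, red base φ = A φ
  cap_pos : ∀ κ, 0 < cap κ
  K_ne : K.Nonempty
  one : ∀ κ, ∀ φ₀ ∈ mem κ, ∀ u ∈ red κ φ₀, ∃ κ' ∈ K, cap κ' ≤ e1 * cap κ ∧
    ∀ φ ∈ mem κ, u ∈ red κ φ → φ ∈ mem κ' ∧ red κ' φ ⊆ red κ φ
  two : ∀ κ, ∀ φ₀ ∈ mem κ, ∀ u ∈ red κ φ₀, ∀ v ∈ red κ φ₀, u ≠ v →
    ∃ κ' ∈ K, cap κ' ≤ e2 * cap κ ∧
    ∀ φ ∈ mem κ, u ∈ red κ φ → v ∈ red κ φ → φ ∈ mem κ' ∧ red κ' φ ⊆ red κ φ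
  lam_ge : 1 ≤ lam
  e2_nonneg : 0 ≤ e2
  e2_le : e2 ≤ e1
  b_ge : 1 ≤ b
  e1_le : 4 * (b * e1) ≤ 1
  lam_e1 : lam * (b ^ 2 * e1) ≤ 1
  K_le : 3 * (K.card : ℝ) ≤ Real.exp lam

namespace Sys

variable {E Φ L : Type*} [DecidableEq E] [DecidableEq Φ] {b : ℕ} (S : Sys E Φ L b)

noncomputable def val (X Y : Finset E) (κ : L) : ℝ :=
  ∑ φ ∈ S.mem κ, wt b X Y (S.A φ) (S.red κ φ)

noncomputable def val1 (X Y : Finset E) (κ : L) (u : E) : ℝ :=
  ∑ φ ∈ S.mem κ, if u ∈ S.red κ φ then wt b X Y (S.A φ) (S.red κ φ) else 0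

noncomputable def val2 (X Y : Finset E) (κ : L) (u v : E) : ℝ :=
  ∑ φ ∈ S.mem κ, if u ∈ S.red κ φ ∧ v ∈ S.red κ φ then wt b X Y (S.A φ) (S.red κ φ) else 0

lemma val_nonneg (X Y : Finset E) (κ : L) : 0 ≤ S.val X Y κ :=
  Finset.sum_nonneg (fun _ _ => wt_nonneg _ _ _ _)

lemma val1_nonneg (X Y : Finset E) (κ : L) (u : E) : 0 ≤ S.val1 X Y κ u := by
  unfold val1
  apply Finset.sum_nonneg; intro i _; split_ifs
  · exact wt_nonneg _ _ _ _
  · exact le_refl _

lemma val2_nonneg (X Y : Finset E) (κ : L) (u v : E) : 0 ≤ S.val2 X Y κ u v := by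
  unfold val2
  apply Finset.sum_nonneg; intro i _; split_ifs
  · exact wt_nonneg _ _ _ _
  · exact le_refl _

lemma e1_nonneg : 0 ≤ S.e1 := S.e2_nonneg.trans S.e2_le

include S in
lemma b1 : (1 : ℝ) ≤ b := by exact_mod_cast S.b_ge

/-- normalised values -/
noncomputable def z (X Y : Finset E) (κ : L) : ℝ := S.val X Y κ / S.cap κ

lemma z_nonneg (X Y : Finset E) (κ : L) : 0 ≤ S.z X Y κ :=
  div_nonneg (S.val_nonneg X Y κ) (S.cap_pos κ).le

/-- the exponential potential -/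
noncomputable def Psi (X Y : Finset E) : ℝ :=
  (∑ κ ∈ S.K, Real.exp (S.lam * S.z X Y κ)) / (S.K.card : ℝ)

lemma K_card_pos : (0 : ℝ) < (S.K.card : ℝ) := by
  exact_mod_cast S.K_ne.card_pos

lemma Psi_ge_one (X Y : Finset E) : 1 ≤ S.Psi X Y := by
  unfold Psi
  rw [le_div_iff₀ S.K_card_pos, one_mul]
  calc (S.K.card : ℝ) = ∑ κ ∈ S.K, (1 : ℝ) := by simp
    _ ≤ ∑ κ ∈ S.K, Real.exp (S.lam * S.z X Y κ) := by
      apply Finset.sum_le_sum
      intro κ _
      rw [← Real.exp_zero]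
      apply Real.exp_le_exp.mpr
      exact mul_nonneg (by linarith [S.lam_ge]) (S.z_nonneg X Y κ)

/-- all capped levels are below their caps -/
def Caps (X Y : Finset E) : Prop := ∀ κ ∈ S.K, S.val X Y κ ≤ S.cap κ

lemma caps_of_Psi {X Y : Finset E} (h : S.Psi X Y ≤ 3) : S.Caps X Y := by
  intro κ hκ
  unfold Psi at h
  rw [div_le_iff₀ S.K_card_pos] at h
  have h1 : Real.exp (S.lam * S.z X Y κ) ≤ ∑ κ ∈ S.K, Real.exp (S.lam * S.z X Y κ) :=
    Finset.single_le_sum (f := fun κ => Real.exp (S.lam * S.z X Y κ))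
      (fun i _ => (Real.exp_pos _).le) hκ
  have h2 : Real.exp (S.lam * S.z X Y κ) ≤ Real.exp S.lam := h1.trans (h.trans S.K_le)
  have h3 := Real.exp_le_exp.mp h2
  have h4 : S.z X Y κ ≤ 1 := by
    have := S.lam_ge
    nlinarith
  unfold z at h4
  rwa [div_le_one (S.cap_pos κ)] at h4

lemma val1_le {X Y : Finset E} (hc : S.Caps X Y) (κ : L) (u : E) :
    S.val1 X Y κ u ≤ S.e1 * S.cap κ := by
  by_cases h : ∃ φ₀ ∈ S.mem κ, u ∈ S.red κ φ₀
  · obtain ⟨φ₀, h0, h1⟩ := h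
    obtain ⟨κ', hK, hcap, hdom⟩ := S.one κ φ₀ h0 u h1
    refine le_trans ?_ ((hc κ' hK).trans hcap)
    unfold val1 val
    rw [← Finset.sum_filter]
    have hsub : (S.mem κ).filter (fun φ => u ∈ S.red κ φ) ⊆ S.mem κ' := by
      intro φ hφ
      rw [Finset.mem_filter] at hφ
      exact (hdom φ hφ.1 hφ.2).1
    calc ∑ φ ∈ (S.mem κ).filter (fun φ => u ∈ S.red κ φ), wt b X Y (S.A φ) (S.red κ φ)
        ≤ ∑ φ ∈ (S.mem κ).filter (fun φ => u ∈ S.red κ φ), wt b X Y (S.A φ) (S.red κ' φ) := by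
          apply Finset.sum_le_sum
          intro φ hφ
          rw [Finset.mem_filter] at hφ
          exact wt_mono (hdom φ hφ.1 hφ.2).2
      _ ≤ _ := Finset.sum_le_sum_of_subset_of_nonneg hsub (fun _ _ _ => wt_nonneg _ _ _ _)
  · push Not at h
    have : S.val1 X Y κ u = 0 := by
      unfold val1
      apply Finset.sum_eq_zero
      intro φ hφ
      rw [if_neg (h φ hφ)]
    rw [this]
    exact mul_nonneg S.e1_nonneg (S.cap_pos κ).le

lemma val2_le {X Y : Finset E} (hc : S.Caps X Y) (κ : L) {u v : E} (huv : u ≠ v) :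
    S.val2 X Y κ u v ≤ S.e2 * S.cap κ := by
  by_cases h : ∃ φ₀ ∈ S.mem κ, u ∈ S.red κ φ₀ ∧ v ∈ S.red κ φ₀
  · obtain ⟨φ₀, h0, h1, h1'⟩ := h
    obtain ⟨κ', hK, hcap, hdom⟩ := S.two κ φ₀ h0 u h1 v h1' huv
    refine le_trans ?_ ((hc κ' hK).trans hcap)
    unfold val2 val
    rw [← Finset.sum_filter]
    have hsub : (S.mem κ).filter (fun φ => u ∈ S.red κ φ ∧ v ∈ S.red κ φ) ⊆ S.mem κ' := by
      intro φ hφ
      rw [Finset.mem_filter] at hφ
      exact (hdom φ hφ.1 hφ.2.1 hφ.2.2).1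
    calc ∑ φ ∈ (S.mem κ).filter (fun φ => u ∈ S.red κ φ ∧ v ∈ S.red κ φ),
          wt b X Y (S.A φ) (S.red κ φ)
        ≤ ∑ φ ∈ (S.mem κ).filter (fun φ => u ∈ S.red κ φ ∧ v ∈ S.red κ φ),
          wt b X Y (S.A φ) (S.red κ' φ) := by
          apply Finset.sum_le_sum
          intro φ hφ
          rw [Finset.mem_filter] at hφ
          exact wt_mono (hdom φ hφ.1 hφ.2.1 hφ.2.2).2
      _ ≤ _ := Finset.sum_le_sum_of_subset_of_nonneg hsub (fun _ _ _ => wt_nonneg _ _ _ _)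
  · push Not at h
    have : S.val2 X Y κ u v = 0 := by
      unfold val2
      apply Finset.sum_eq_zero
      intro φ hφ
      rw [if_neg]
      rintro ⟨h1, h2⟩
      exact h φ hφ h1 h2
    rw [this]
    exact mul_nonneg S.e2_nonneg (S.cap_pos κ).le

section round
variable {X Y R : Finset E} {x : E}

lemma val_base_lower (hxX : x ∉ X) :
    S.val X Y S.base + b * S.val1 X Y S.base x - ∑ y ∈ R, S.val1 X Y S.base y
      - b * ∑ y ∈ R, S.val2 X Y S.base x y
      ≤ S.val (insert x X) (Y ∪ R) S.base := by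
  unfold val val1 val2
  rw [Finset.sum_comm (s := R), Finset.sum_comm (s := R), Finset.mul_sum, Finset.mul_sum,
    ← Finset.sum_add_distrib, ← Finset.sum_sub_distrib, ← Finset.sum_sub_distrib]
  apply Finset.sum_le_sum
  intro φ _
  rw [S.red_base φ]
  exact wt_lower hxX

lemma val_base_lower' (hxX : x ∉ X) :
    S.val X Y S.base - ∑ y ∈ R, S.val1 X Y S.base y
      ≤ S.val (insert x X) (Y ∪ R) S.base := by
  unfold val val1
  rw [Finset.sum_comm (s := R), ← Finset.sum_sub_distrib]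
  apply Finset.sum_le_sum
  intro φ _
  rw [S.red_base φ]
  exact wt_lower' hxX

lemma val_base_upper' (hxX : x ∉ X) :
    S.val (insert x X) (Y ∪ R) S.base
      ≤ S.val X Y S.base + b * S.val1 X Y S.base x := by
  unfold val val1
  rw [Finset.mul_sum, ← Finset.sum_add_distrib]
  apply Finset.sum_le_sum
  intro φ _
  rw [S.red_base φ]
  exact wt_upper' hxX

lemma val_upper (κ : L) (hxX : x ∉ X) :
    S.val (insert x X) (Y ∪ R) κ
      ≤ S.val X Y κ + b * S.val1 X Y κ x - ∑ y ∈ R, S.val1 X Y κ y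
        + ∑ p ∈ R.offDiag, S.val2 X Y κ p.1 p.2 := by
  unfold val val1 val2
  rw [Finset.sum_comm (s := R), Finset.sum_comm (s := R.offDiag), Finset.mul_sum,
    ← Finset.sum_add_distrib, ← Finset.sum_sub_distrib, ← Finset.sum_add_distrib]
  apply Finset.sum_le_sum
  intro φ _
  exact wt_upper (S.red_sub κ φ) hxX

/-- linearised danger of a point -/
noncomputable def D (X Y : Finset E) (u : E) : ℝ :=
  (∑ κ ∈ S.K, Real.exp (S.lam * S.z X Y κ) * (S.lam * (S.val1 X Y κ u / S.cap κ)))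
    / (S.K.card : ℝ)

/-- linearised value of a point -/
noncomputable def j (X Y : Finset E) (u : E) : ℝ :=
  S.cap S.base / (S.val X Y S.base) ^ 2 * S.val1 X Y S.base u - S.D X Y u

/-- potential -/
noncomputable def J (X Y : Finset E) : ℝ :=
  - (S.cap S.base / S.val X Y S.base) - S.Psi X Y

noncomputable def err : ℝ := 7 * S.lam * (b ^ 2 * S.e2) + 19 * S.lam ^ 2 * (b ^ 2 * S.e1) ^ 2

lemma err_nonneg : 0 ≤ S.err := by
  unfold err
  have h1 := S.lam_ge
  have h2 := S.e2_nonneg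
  have h3 := S.e1_nonneg
  positivity

lemma Psi_round (hxX : x ∉ X) (hR : R.card = b) (hc : S.Caps X Y) (hP : S.Psi X Y ≤ 3) :
    S.Psi (insert x X) (Y ∪ R) ≤ S.Psi X Y + b * S.D X Y x - ∑ y ∈ R, S.D X Y y
      + (3 * S.lam * (b ^ 2 * S.e2) + 3 * S.lam ^ 2 * (b ^ 2 * S.e1) ^ 2) := by
  have hl := S.lam_ge
  have he1 := S.e1_nonneg
  have he2 := S.e2_nonneg
  have he21 := S.e2_le
  have hle := S.lam_e1
  have hb := S.b1
  set C : ℝ := S.lam * (b ^ 2 * S.e2) + S.lam ^ 2 * (b ^ 2 * S.e1) ^ 2 with hC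
  have hpt : ∀ κ ∈ S.K, Real.exp (S.lam * S.z (insert x X) (Y ∪ R) κ) ≤
      Real.exp (S.lam * S.z X Y κ)
      + b * (Real.exp (S.lam * S.z X Y κ) * (S.lam * (S.val1 X Y κ x / S.cap κ)))
      - ∑ y ∈ R, Real.exp (S.lam * S.z X Y κ) * (S.lam * (S.val1 X Y κ y / S.cap κ))
      + Real.exp (S.lam * S.z X Y κ) * C := by
    intro κ _
    have hcap := S.cap_pos κ
    set a := S.val1 X Y κ x / S.cap κ with ha
    set c := ∑ y ∈ R, S.val1 X Y κ y / S.cap κ with hc'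
    set d := ∑ p ∈ R.offDiag, S.val2 X Y κ p.1 p.2 / S.cap κ with hd
    have ha0 : 0 ≤ a := div_nonneg (S.val1_nonneg _ _ _ _) hcap.le
    have hc0 : 0 ≤ c := Finset.sum_nonneg
      (fun i _ => div_nonneg (S.val1_nonneg _ _ _ _) hcap.le)
    have hd0 : 0 ≤ d := Finset.sum_nonneg
      (fun i _ => div_nonneg (S.val2_nonneg _ _ _ _ _) hcap.le)
    have ha1 : a ≤ S.e1 := by rw [ha, div_le_iff₀ hcap]; exact S.val1_le hc κ x
    have hc1 : c ≤ b * S.e1 := by
      calc c ≤ ∑ y ∈ R, S.e1 := Finset.sum_le_sum (fun y _ => by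
            rw [div_le_iff₀ hcap]; exact S.val1_le hc κ y)
        _ = b * S.e1 := by rw [Finset.sum_const, nsmul_eq_mul, hR]
    have hd1 : d ≤ (b ^ 2 - b) * S.e2 := by
      calc d ≤ ∑ p ∈ R.offDiag, S.e2 := Finset.sum_le_sum (fun p hp => by
            rw [div_le_iff₀ hcap]
            exact S.val2_le hc κ (Finset.mem_offDiag.mp hp).2.2)
        _ = (b ^ 2 - b) * S.e2 := by
          rw [Finset.sum_const, nsmul_eq_mul, Finset.offDiag_card, hR,
            Nat.cast_sub (Nat.le_mul_self b)]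
          push_cast
          ring
    have hd2 : d ≤ b ^ 2 * S.e2 := by nlinarith
    have hz : S.z (insert x X) (Y ∪ R) κ ≤ S.z X Y κ + (b * a - c + d) := by
      unfold z
      rw [div_le_iff₀ hcap]
      have := S.val_upper (X := X) (Y := Y) (x := x) (R := R) κ hxX
      have e1 : (S.val X Y κ / S.cap κ + (b * a - c + d)) * S.cap κ
          = S.val X Y κ + b * S.val1 X Y κ x - ∑ y ∈ R, S.val1 X Y κ y
            + ∑ p ∈ R.offDiag, S.val2 X Y κ p.1 p.2 := by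
        rw [ha, hc', hd, ← Finset.sum_div, ← Finset.sum_div]; field_simp; ring
      rw [e1]; exact this
    set t := b * a - c + d with ht
    have hba : b * a ≤ b * S.e1 := mul_le_mul_of_nonneg_left ha1 (by linarith)
    have hba0 : 0 ≤ b * a := by positivity
    have hbb : 0 ≤ (b : ℝ) ^ 2 - b := by nlinarith
    have hbe : ((b : ℝ) ^ 2 - b) * S.e2 ≤ (b ^ 2 - b) * S.e1 :=
      mul_le_mul_of_nonneg_left he21 hbb
    have hbe' : 0 ≤ ((b : ℝ) ^ 2 - b) * S.e1 := mul_nonneg hbb he1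
    have ht1 : t ≤ b ^ 2 * S.e1 := by rw [ht]; linarith
    have ht2 : -(b ^ 2 * S.e1) ≤ t := by rw [ht]; linarith
    have hlt : |S.lam * t| ≤ 1 := by
      rw [abs_le]; constructor <;> nlinarith
    have hexp : Real.exp (S.lam * t) ≤ 1 + S.lam * t + (S.lam * t) ^ 2 := by
      have h := Real.abs_exp_sub_one_sub_id_le hlt
      rw [abs_le] at h
      linarith [h.2]
    have ht3 : t ^ 2 ≤ (b ^ 2 * S.e1) ^ 2 := sq_le_sq' ht2 ht1
    have h1 : Real.exp (S.lam * S.z (insert x X) (Y ∪ R) κ)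
        ≤ Real.exp (S.lam * S.z X Y κ) * Real.exp (S.lam * t) := by
      rw [← Real.exp_add]
      apply Real.exp_le_exp.mpr
      nlinarith
    have h2 : Real.exp (S.lam * t) ≤ 1 + b * (S.lam * a) - S.lam * c + C := by
      refine hexp.trans ?_
      have : (S.lam * t) ^ 2 ≤ S.lam ^ 2 * (b ^ 2 * S.e1) ^ 2 := by
        rw [mul_pow]
        exact mul_le_mul_of_nonneg_left ht3 (by positivity)
      have h3 : S.lam * t = b * (S.lam * a) - S.lam * c + S.lam * d := by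
        rw [ht]; ring
      have h4 : S.lam * d ≤ S.lam * (b ^ 2 * S.e2) := mul_le_mul_of_nonneg_left hd2 (by linarith)
      rw [hC]
      linarith
    have h5 := mul_le_mul_of_nonneg_left h2 (Real.exp_pos (S.lam * S.z X Y κ)).le
    refine h1.trans (h5.trans (le_of_eq ?_))
    have h6 : ∑ y ∈ R, Real.exp (S.lam * S.z X Y κ) * (S.lam * (S.val1 X Y κ y / S.cap κ))
        = Real.exp (S.lam * S.z X Y κ) * (S.lam * c) := by
      rw [hc', Finset.mul_sum, Finset.mul_sum]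
    rw [h6]
    ring
  have hsum := Finset.sum_le_sum hpt
  have hKp := S.K_card_pos
  have e1 : S.Psi X Y + b * S.D X Y x - ∑ y ∈ R, S.D X Y y + S.Psi X Y * C
      = (∑ κ ∈ S.K, (Real.exp (S.lam * S.z X Y κ)
      + b * (Real.exp (S.lam * S.z X Y κ) * (S.lam * (S.val1 X Y κ x / S.cap κ)))
      - ∑ y ∈ R, Real.exp (S.lam * S.z X Y κ) * (S.lam * (S.val1 X Y κ y / S.cap κ))
      + Real.exp (S.lam * S.z X Y κ) * C)) / (S.K.card : ℝ) := by
    unfold Psi D
    rw [Finset.sum_add_distrib, Finset.sum_sub_distrib,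
      Finset.sum_add_distrib, ← Finset.mul_sum, ← Finset.sum_mul,
      Finset.sum_comm (t := R), ← Finset.sum_div]
    field_simp
  have hPn : S.Psi (insert x X) (Y ∪ R) ≤ S.Psi X Y + b * S.D X Y x
      - ∑ y ∈ R, S.D X Y y + S.Psi X Y * C := by
    rw [e1]
    unfold Psi
    exact div_le_div_of_nonneg_right hsum hKp.le
  have hC0 : 0 ≤ C := by rw [hC]; positivity
  have : S.Psi X Y * C ≤ 3 * C := mul_le_mul_of_nonneg_right hP hC0
  rw [hC] at this
  rw [hC] at hPn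
  linarith

lemma base_round (hxX : x ∉ X) (hR : R.card = b) (hxR : x ∉ R) (hc : S.Caps X Y)
    (hF : S.cap S.base / 2 ≤ S.val X Y S.base) :
    0 < S.val (insert x X) (Y ∪ R) S.base ∧
    - (S.cap S.base / S.val X Y S.base) + S.cap S.base / (S.val X Y S.base) ^ 2 *
        (b * S.val1 X Y S.base x - ∑ y ∈ R, S.val1 X Y S.base y)
      - (4 * (b ^ 2 * S.e2) + 16 * (b ^ 2 * S.e1) ^ 2)
      ≤ - (S.cap S.base / S.val (insert x X) (Y ∪ R) S.base) := by
  have hcap := S.cap_pos S.base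
  have he1 := S.e1_nonneg
  have he16 := S.e1_le
  have he2 := S.e2_nonneg
  have hb := S.b1
  set F₀ := S.cap S.base with hF0
  set F := S.val X Y S.base with hFd
  set F' := S.val (insert x X) (Y ∪ R) S.base with hF'
  set a := S.val1 X Y S.base x with ha
  set c := ∑ y ∈ R, S.val1 X Y S.base y with hc'
  have ha0 : 0 ≤ a := S.val1_nonneg _ _ _ _
  have hc0 : 0 ≤ c := Finset.sum_nonneg (fun i _ => S.val1_nonneg _ _ _ _)
  have ha1 : a ≤ S.e1 * F₀ := S.val1_le hc _ x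
  have hc1 : c ≤ b * (S.e1 * F₀) := by
    calc c ≤ ∑ y ∈ R, S.e1 * F₀ := Finset.sum_le_sum (fun y _ => S.val1_le hc _ y)
      _ = b * (S.e1 * F₀) := by rw [Finset.sum_const, nsmul_eq_mul, hR]
  have hd1 : ∑ y ∈ R, S.val2 X Y S.base x y ≤ b * (S.e2 * F₀) := by
    calc ∑ y ∈ R, S.val2 X Y S.base x y ≤ ∑ y ∈ R, S.e2 * F₀ :=
          Finset.sum_le_sum (fun y hy => S.val2_le hc _ (by rintro rfl; exact hxR hy))
      _ = b * (S.e2 * F₀) := by rw [Finset.sum_const, nsmul_eq_mul, hR]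
  have hL := S.val_base_lower (Y := Y) (R := R) hxX
  have hL' := S.val_base_lower' (Y := Y) (R := R) hxX
  have hU' := S.val_base_upper' (Y := Y) (R := R) hxX
  rw [← hFd, ← hF', ← ha, ← hc'] at hL
  rw [← hFd, ← hF', ← hc'] at hL'
  rw [← hFd, ← hF', ← ha] at hU'
  have hF0' : 0 < F := by linarith
  have hbe : b * (S.e1 * F₀) ≤ F₀ / 4 := by nlinarith
  have hFq : F₀ / 4 ≤ F' := by linarith
  have hF'0 : 0 < F' := by linarith
  refine ⟨hF'0, ?_⟩
  -- normalise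
  set δ := F' - F with hδ
  have hba : b * a ≤ b * (S.e1 * F₀) := mul_le_mul_of_nonneg_left ha1 (by linarith)
  have hδ1 : δ ≤ b * (S.e1 * F₀) := by linarith
  have hδ2 : -(b * (S.e1 * F₀)) ≤ δ := by linarith
  have hδsq : δ ^ 2 ≤ (b * (S.e1 * F₀)) ^ 2 := sq_le_sq' hδ2 hδ1
  have hid : - (F₀ / F') = - (F₀ / F) + F₀ / F ^ 2 * δ - F₀ * δ ^ 2 / (F ^ 2 * F') := by
    have : F' = F + δ := by rw [hδ]; ring
    rw [hδ]
    field_simp
    ring
  have hg : F₀ / F ^ 2 * δ ≥ F₀ / F ^ 2 * (b * a - c) - 4 * (b ^ 2 * S.e2) := by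
    have h3 : δ ≥ (b * a - c) - b ^ 2 * (S.e2 * F₀) := by
      have : b * ∑ y ∈ R, S.val2 X Y S.base x y ≤ b * (b * (S.e2 * F₀)) :=
        mul_le_mul_of_nonneg_left hd1 (by linarith)
      nlinarith
    have h4 : 0 ≤ F₀ / F ^ 2 := by positivity
    have h5 : F₀ / F ^ 2 * (b ^ 2 * (S.e2 * F₀)) ≤ 4 * (b ^ 2 * S.e2) := by
      have h6 : F₀ / F ^ 2 * (b ^ 2 * (S.e2 * F₀)) = (b ^ 2 * S.e2) * (F₀ ^ 2 / F ^ 2) := by
        field_simp
      rw [h6]
      have h7 : F₀ ^ 2 / F ^ 2 ≤ 4 := by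
        rw [div_le_iff₀ (by positivity)]
        nlinarith
      have h8 : 0 ≤ (b : ℝ) ^ 2 * S.e2 := by positivity
      nlinarith
    have h8 := mul_le_mul_of_nonneg_left h3 h4
    rw [mul_sub] at h8
    linarith
  have hs : F₀ * δ ^ 2 / (F ^ 2 * F') ≤ 16 * (b ^ 2 * S.e1) ^ 2 := by
    rw [div_le_iff₀ (by positivity)]
    have h9 : F₀ * δ ^ 2 ≤ F₀ * (b * (S.e1 * F₀)) ^ 2 := mul_le_mul_of_nonneg_left hδsq hcap.le
    have h10 : (F₀ / 2) ^ 2 ≤ F ^ 2 := pow_le_pow_left₀ (by positivity) hF 2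
    have h11 : (F₀ / 2) ^ 2 * (F₀ / 4) ≤ F ^ 2 * F' :=
      mul_le_mul h10 hFq (by positivity) (by positivity)
    have h12 : 16 * (b ^ 2 * S.e1) ^ 2 * ((F₀ / 2) ^ 2 * (F₀ / 4))
        ≤ 16 * (b ^ 2 * S.e1) ^ 2 * (F ^ 2 * F') :=
      mul_le_mul_of_nonneg_left h11 (by positivity)
    have h13 : F₀ * (b * (S.e1 * F₀)) ^ 2 ≤ 16 * (b ^ 2 * S.e1) ^ 2 * ((F₀ / 2) ^ 2 * (F₀ / 4)) := by
      have e1 : F₀ * (b * (S.e1 * F₀)) ^ 2 = (b : ℝ) ^ 2 * (S.e1 ^ 2 * F₀ ^ 3) := by ring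
      have e2 : 16 * (b ^ 2 * S.e1) ^ 2 * ((F₀ / 2) ^ 2 * (F₀ / 4))
          = (b : ℝ) ^ 4 * (S.e1 ^ 2 * F₀ ^ 3) := by ring
      rw [e1, e2]
      apply mul_le_mul_of_nonneg_right _ (by positivity)
      exact pow_le_pow_right₀ hb (by norm_num)
    linarith
  rw [hid]
  linarith

lemma J_round (hxX : x ∉ X) (hR : R.card = b) (hxR : x ∉ R)
    (hP : S.Psi X Y ≤ 3)
    (hF : S.cap S.base / 2 ≤ S.val X Y S.base)
    (hj : ∀ y ∈ R, S.j X Y y ≤ S.j X Y x) :
    0 < S.val (insert x X) (Y ∪ R) S.base ∧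
    S.J X Y - S.err ≤ S.J (insert x X) (Y ∪ R) := by
  have hc := S.caps_of_Psi hP
  obtain ⟨hpos, hb⟩ := S.base_round (Y := Y) (R := R) hxX hR hxR hc hF
  refine ⟨hpos, ?_⟩
  have hPsi := S.Psi_round (Y := Y) (x := x) (R := R) hxX hR hc hP
  have hjs : ∑ y ∈ R, S.j X Y y ≤ b * S.j X Y x := by
    calc ∑ y ∈ R, S.j X Y y ≤ ∑ y ∈ R, S.j X Y x := Finset.sum_le_sum hj
      _ = b * S.j X Y x := by rw [Finset.sum_const, nsmul_eq_mul, hR]
  unfold J err
  unfold j at hjs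
  rw [Finset.sum_sub_distrib, ← Finset.mul_sum] at hjs
  have hl := S.lam_ge
  have he1 := S.e1_nonneg
  have he2 := S.e2_nonneg
  have hb1 := S.b1
  have h3 : 4 * (b ^ 2 * S.e2) ≤ 4 * S.lam * (b ^ 2 * S.e2) := by
    have : 0 ≤ (b : ℝ) ^ 2 * S.e2 := by positivity
    nlinarith
  have h4 : 16 * (b ^ 2 * S.e1) ^ 2 ≤ 16 * S.lam ^ 2 * (b ^ 2 * S.e1) ^ 2 := by
    have : 1 ≤ S.lam ^ 2 := by nlinarith
    have h5 : 0 ≤ ((b : ℝ) ^ 2 * S.e1) ^ 2 := by positivity
    nlinarith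
  have h8 : S.cap S.base / (S.val X Y S.base) ^ 2 *
        (b * S.val1 X Y S.base x - ∑ y ∈ R, S.val1 X Y S.base y)
      = b * (S.cap S.base / (S.val X Y S.base) ^ 2 * S.val1 X Y S.base x)
        - S.cap S.base / (S.val X Y S.base) ^ 2 * ∑ y ∈ R, S.val1 X Y S.base y := by ring
  rw [h8] at hb
  linarith

end round

end Sys

end Pool.Agent.Y418.BG.Crit
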