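import Mathlib
import Pool.Agent.Y418.BG.Crit

set_option autoImplicit false
set_option linter.unusedVariables false
set_option linter.unusedSectionVars false

namespace Pool.Agent.Y418.BG.Play

open Finset Pool.Agent.Y418.BG.Crit

/-- Maker (to move, `a` points per turn) can force that at the end of the play his set has `goal`;
Breaker claims `b` points per turn. -/
inductive Forces {E : Type*} [DecidableEq E] (a b : ℕ) (Bd : Finset E)
    (goal : Finset E → Prop) : Finset E → Finset E → Prop
  | done {M B : Finset E} (h0 : Bd \ (M ∪ B) = ∅) (hg : goal M) : Forces a b Bd goal M B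
  | move {M B : Finset E} (h0 : Bd \ (M ∪ B) ≠ ∅) (Q : Finset E) (hQ : Q ⊆ Bd \ (M ∪ B))
      (hc : Q.card = min a (Bd \ (M ∪ B)).card)
      (h : ∀ R ⊆ (Bd \ (M ∪ B)) \ Q, R.card = min b ((Bd \ (M ∪ B)) \ Q).card →
        Forces a b Bd goal (M ∪ Q) (B ∪ R)) : Forces a b Bd goal M B

section
variable {E : Type*} [DecidableEq E] {a b : ℕ} {Bd : Finset E} {goal : Finset E → Prop}

lemma card_lt_of_move {M B Q R : Finset E} (h0 : Bd \ (M ∪ B) ≠ ∅)
    (hQ : Q ⊆ Bd \ (M ∪ B)) (ha : 1 ≤ a) (hc : Q.card = min a (Bd \ (M ∪ B)).card) :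
    (Bd \ (M ∪ Q ∪ (B ∪ R))).card < (Bd \ (M ∪ B)).card := by
  have hpos : 0 < (Bd \ (M ∪ B)).card := Finset.card_pos.mpr (Finset.nonempty_iff_ne_empty.mpr h0)
  have hQne : Q.Nonempty := by
    rw [← Finset.card_pos, hc]
    exact lt_min (by omega) hpos
  obtain ⟨x, hx⟩ := hQne
  apply Finset.card_lt_card
  refine ⟨?_, ?_⟩
  · intro y hy
    simp only [mem_sdiff, mem_union, not_or] at hy ⊢
    exact ⟨hy.1, hy.2.1.1, hy.2.2.1⟩
  · intro hcon
    have := hcon (hQ hx)
    simp [hx] at this

lemma forces_of_goal (ha : 1 ≤ a) (hmono : ∀ M M' : Finset E, M ⊆ M' → goal M → goal M') :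
    ∀ (k : ℕ) (M B : Finset E), (Bd \ (M ∪ B)).card = k → goal M → Forces a b Bd goal M B := by
  intro k
  induction k using Nat.strong_induction_on with
  | _ k ih =>
    intro M B hk hg
    by_cases h0 : Bd \ (M ∪ B) = ∅
    · exact Forces.done h0 hg
    · obtain ⟨Q, hQ, hQc⟩ := Finset.exists_subset_card_eq
        (min_le_right a (Bd \ (M ∪ B)).card)
      refine Forces.move h0 Q hQ hQc ?_
      intro R hR hcard
      refine ih _ ?_ _ _ rfl (hmono _ _ Finset.subset_union_left hg)
      rw [← hk]
      exact card_lt_of_move h0 hQ ha hQc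

variable {Φ L : Type*} [DecidableEq Φ] (S : Sys E Φ L b)

theorem forces_of_potential (ha : 1 ≤ a) (P₀ : Finset E) (hP : P₀ ⊆ Bd)
    (hA : ∀ φ, S.A φ ⊆ P₀)
    (hmono : ∀ M M' : Finset E, M ⊆ M' → goal M → goal M')
    (hgoal : ∀ φ M, S.A φ ⊆ M → goal M)
    (herr : (P₀.card : ℝ) * S.err ≤ 1 / 4) :
    ∀ (k : ℕ) (X Y U M B : Finset E), U.card = k → k ≤ P₀.card → P₀ ⊆ X ∪ Y ∪ U →
      Disjoint U X → X ⊆ M → U ⊆ Bd \ B → 0 < S.val X Y S.base →
      -(9 / 4 : ℝ) - ((P₀.card : ℝ) - k) * S.err ≤ S.J X Y →
      Forces a b Bd goal M B := by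
  intro k
  induction k using Nat.strong_induction_on with
  | _ k ih =>
    intro X Y U M B hk hkT hcov hUX hXM hUfree hpos hJ
    have herr0 := S.err_nonneg
    have hJ' : -(5 / 2 : ℝ) ≤ S.J X Y := by
      have h1 : ((P₀.card : ℝ) - k) * S.err ≤ (P₀.card : ℝ) * S.err := by
        apply mul_le_mul_of_nonneg_right _ herr0
        have : (0 : ℝ) ≤ k := Nat.cast_nonneg k
        linarith
      linarith
    have hPsi1 := S.Psi_ge_one X Y
    have hcap := S.cap_pos S.base
    have hq : 0 < S.cap S.base / S.val X Y S.base := div_pos hcap hpos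
    have hPsi : S.Psi X Y ≤ 3 := by
      unfold Sys.J at hJ'
      linarith
    have hF : S.cap S.base / 2 ≤ S.val X Y S.base := by
      have h2 : S.cap S.base / S.val X Y S.base ≤ 3 / 2 := by
        unfold Sys.J at hJ'
        linarith
      rw [div_le_iff₀ hpos] at h2
      linarith
    have hb1 := S.b_ge
    by_cases hk3 : k < b + 1
    · -- finish
      have hcaps := S.caps_of_Psi hPsi
      have hsum : ∑ u ∈ U, S.val1 X Y S.base u < S.val X Y S.base := by
        have h1 : ∑ u ∈ U, S.val1 X Y S.base u ≤ ∑ u ∈ U, S.e1 * S.cap S.base :=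
          Finset.sum_le_sum (fun u _ => S.val1_le hcaps _ u)
        rw [Finset.sum_const, nsmul_eq_mul, hk] at h1
        have h2 : (k : ℝ) ≤ b := by
          have : k ≤ b := by omega
          exact_mod_cast this
        have h3 : b * (S.e1 * S.cap S.base) ≤ S.cap S.base / 4 := by
          have := S.e1_le
          nlinarith
        have h4 : 0 ≤ S.e1 * S.cap S.base := mul_nonneg S.e1_nonneg hcap.le
        nlinarith
      have hex : ∃ φ ∈ S.mem S.base, Disjoint (S.A φ) Y ∧ ∀ u ∈ U, u ∉ S.A φ := by
        by_contra hcon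
        push Not at hcon
        have hle : S.val X Y S.base ≤ ∑ u ∈ U, S.val1 X Y S.base u := by
          unfold Sys.val Sys.val1
          rw [Finset.sum_comm]
          apply Finset.sum_le_sum
          intro φ hφ
          by_cases hd : Disjoint (S.A φ) Y
          · obtain ⟨u, huU, huA⟩ := hcon φ hφ hd
            have : (if u ∈ S.red S.base φ then wt b X Y (S.A φ) (S.red S.base φ) else 0)
                ≤ ∑ u ∈ U, if u ∈ S.red S.base φ then wt b X Y (S.A φ) (S.red S.base φ) else 0 := by
              apply Finset.single_le_sum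
                (f := fun u => if u ∈ S.red S.base φ then wt b X Y (S.A φ) (S.red S.base φ) else 0)
              · intro i _
                split_ifs
                · exact wt_nonneg _ _ _ _
                · exact le_refl _
              · exact huU
            refine le_trans ?_ this
            rw [if_pos]
            rw [S.red_base]; exact huA
          · have : wt b X Y (S.A φ) (S.red S.base φ) = 0 := by
              unfold wt; rw [if_neg hd]
            rw [this]
            simp
        linarith
      obtain ⟨φ, _, hd, hu⟩ := hex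
      have hsub : S.A φ ⊆ X := by
        intro w hw
        have h1 := hcov (hA φ hw)
        rw [mem_union, mem_union] at h1
        rcases h1 with (h1 | h1) | h1
        · exact h1
        · exact absurd h1 (Finset.disjoint_left.mp hd hw)
        · exact absurd hw (hu w h1)
      exact forces_of_goal ha hmono _ M B rfl (hgoal φ M (hsub.trans hXM))
    · push Not at hk3
      have hne : U.Nonempty := by rw [← Finset.card_pos]; omega
      obtain ⟨x, hxU, hxmax⟩ := Finset.exists_max_image U (fun u => S.j X Y u) hne
      have hxB := hUfree hxU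
      have hUe : b ≤ (U.erase x).card := by
        rw [Finset.card_erase_of_mem hxU]; omega
      have hxX : x ∉ X := Finset.disjoint_left.mp hUX hxU
      -- the virtual round against the reply `t`
      have key : ∀ (t M' B' : Finset E), t ⊆ U.erase x → t.card = b → M ⊆ M' → x ∈ M' →
          (∀ w ∈ U, w ∉ t → w ∉ B') → Forces a b Bd goal M' B' := by
        intro t M' B' ht2 ht3 hMM hxM hB'
        have hxt : x ∉ t := fun h => (Finset.notMem_erase x U) (ht2 h)
        obtain ⟨hpos', hJr⟩ := S.J_round (X := X) (Y := Y) (x := x) (R := t) hxX ht3 hxt hPsi hF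
          (fun y hy => hxmax y (Finset.mem_of_mem_erase (ht2 hy)))
        have htU : t ⊆ U := fun y hy => Finset.mem_of_mem_erase (ht2 hy)
        have hcardU : (U \ insert x t).card = k - (b + 1) := by
          rw [Finset.card_sdiff_of_subset (Finset.insert_subset hxU htU), hk,
            Finset.card_insert_of_notMem hxt, ht3]
        refine ih (k - (b + 1)) (by omega) (insert x X) (Y ∪ t) (U \ insert x t)
          M' B' hcardU (by omega) ?_ ?_ ?_ ?_ hpos' ?_
        · intro w hw
          have := hcov hw
          simp only [mem_union, mem_insert, mem_sdiff] at this ⊢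
          tauto
        · rw [Finset.disjoint_left] at hUX ⊢
          intro w hw
          simp only [mem_insert, mem_sdiff, not_or] at hw ⊢
          exact ⟨hw.2.1, hUX hw.1⟩
        · exact Finset.insert_subset hxM (hXM.trans hMM)
        · intro w hw
          rw [mem_sdiff, mem_insert, not_or] at hw
          rw [mem_sdiff]
          exact ⟨(Finset.mem_sdiff.mp (hUfree hw.1)).1, hB' w hw.1 hw.2.2⟩
        · refine le_trans ?_ hJr
          have h1 : (((k - (b + 1) : ℕ) : ℝ)) = (k : ℝ) - (b + 1) := by
            rw [Nat.cast_sub hk3]; push_cast; ring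
          rw [h1]
          have h2 : (0 : ℝ) ≤ b := Nat.cast_nonneg b
          nlinarith
      by_cases h0 : Bd \ (M ∪ B) = ∅
      · -- the play is over, the virtual play goes on
        have hallM : ∀ w ∈ U, w ∈ M := by
          intro w hw
          have h1 := Finset.mem_sdiff.mp (hUfree hw)
          by_contra hc
          have h2 : w ∈ Bd \ (M ∪ B) := by
            rw [mem_sdiff, mem_union, not_or]
            exact ⟨h1.1, hc, h1.2⟩
          rw [h0] at h2
          exact Finset.notMem_empty w h2
        obtain ⟨t, ht2, ht3⟩ := Finset.exists_subset_card_eq hUe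
        exact key t M B ht2 ht3 (le_refl _) (hallM x hxU)
          (fun w hw _ => (Finset.mem_sdiff.mp (hUfree hw)).2)
      · -- Maker claims a set containing `x`, if `x` is free
        have hfree_pos : 0 < (Bd \ (M ∪ B)).card :=
          Finset.card_pos.mpr (Finset.nonempty_iff_ne_empty.mpr h0)
        obtain ⟨Q, hxQ, hQ, hQc⟩ : ∃ Q : Finset E, (x ∈ M ∪ Q) ∧ Q ⊆ Bd \ (M ∪ B) ∧
            Q.card = min a (Bd \ (M ∪ B)).card := by
          by_cases hxM : x ∈ M
          · obtain ⟨Q, hQ, hQc⟩ := Finset.exists_subset_card_eq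
              (min_le_right a (Bd \ (M ∪ B)).card)
            exact ⟨Q, Finset.mem_union_left _ hxM, hQ, hQc⟩
          · have hxf : x ∈ Bd \ (M ∪ B) := by
              rw [mem_sdiff] at hxB
              rw [mem_sdiff, mem_union, not_or]
              exact ⟨hxB.1, hxM, hxB.2⟩
            obtain ⟨Q, h1, h2, h3⟩ := Finset.exists_subsuperset_card_eq
              (Finset.singleton_subset_iff.mpr hxf)
              (n := min a (Bd \ (M ∪ B)).card) (by
                rw [Finset.card_singleton]
                exact le_min ha hfree_pos)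
              (min_le_right _ _)
            exact ⟨Q, Finset.mem_union_right _ (h1 (Finset.mem_singleton_self x)), h2, h3⟩
        refine Forces.move h0 Q hQ hQc ?_
        intro R hR hRc
        have hxR : x ∉ R := by
          intro h
          have h1 := hR h
          rw [mem_sdiff, mem_sdiff, mem_union, not_or] at h1
          rw [mem_union] at hxQ
          rcases hxQ with h2 | h2
          · exact h1.1.2.1 h2
          · exact h1.2 h2
        have hRcard : (R ∩ U).card ≤ b := by
          have h1 : (R ∩ U).card ≤ R.card := Finset.card_le_card Finset.inter_subset_left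
          have h2 : R.card ≤ b := by rw [hRc]; exact min_le_left _ _
          omega
        have hRsub : R ∩ U ⊆ U.erase x := by
          intro y hy
          rw [mem_inter] at hy
          rw [mem_erase]
          exact ⟨fun h => hxR (h ▸ hy.1), hy.2⟩
        obtain ⟨t, ht1, ht2, ht3⟩ := Finset.exists_subsuperset_card_eq hRsub hRcard hUe
        refine key t (M ∪ Q) (B ∪ R) ht2 ht3 Finset.subset_union_left hxQ ?_
        intro w hw hwt
        rw [mem_union, not_or]
        refine ⟨(Finset.mem_sdiff.mp (hUfree hw)).2, ?_⟩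
        intro hwR
        exact hwt (ht1 (Finset.mem_inter.mpr ⟨hwR, hw⟩))

/-- Start of the game. -/
theorem forces_start (ha : 1 ≤ a) (P₀ : Finset E) (hP : P₀ ⊆ Bd) (hA : ∀ φ, S.A φ ⊆ P₀)
    (hmono : ∀ M M' : Finset E, M ⊆ M' → goal M → goal M')
    (hgoal : ∀ φ M, S.A φ ⊆ M → goal M)
    (herr : (P₀.card : ℝ) * S.err ≤ 1 / 4)
    (hbase : S.val ∅ ∅ S.base = S.cap S.base)
    (hz : ∀ κ ∈ S.K, S.lam * S.z ∅ ∅ κ ≤ 1 / 8) :
    Forces a b Bd goal ∅ ∅ := by
  have hcap := S.cap_pos S.base
  refine forces_of_potential S ha P₀ hP hA hmono hgoal herr P₀.card ∅ ∅ P₀ ∅ ∅ rfl le_rfl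
    (by simp) (by simp) (le_refl _) (by simpa using hP) (by rw [hbase]; exact hcap) ?_
  unfold Sys.J
  rw [hbase, div_self hcap.ne']
  have hPsi : S.Psi ∅ ∅ ≤ 5 / 4 := by
    unfold Sys.Psi
    rw [div_le_iff₀ S.K_card_pos]
    calc ∑ κ ∈ S.K, Real.exp (S.lam * S.z ∅ ∅ κ) ≤ ∑ κ ∈ S.K, (5 / 4 : ℝ) := by
          apply Finset.sum_le_sum
          intro κ hκ
          have h1 := hz κ hκ
          have h0 : 0 ≤ S.lam * S.z ∅ ∅ κ :=
            mul_nonneg (by linarith [S.lam_ge]) (S.z_nonneg _ _ _)
          have h2 : |S.lam * S.z ∅ ∅ κ| ≤ 1 := by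
            rw [abs_le]; constructor <;> linarith
          have h3 := Real.abs_exp_sub_one_sub_id_le h2
          rw [abs_le] at h3
          nlinarith [h3.2]
      _ = 5 / 4 * (S.K.card : ℝ) := by
          rw [Finset.sum_const, nsmul_eq_mul]; ring
  simp only [sub_self, zero_mul, sub_zero]
  linarith

end

end Pool.Agent.Y418.BG.Play
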