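import Mathlib
import Pool.Agent.Y418.BG.Crit
import Pool.Agent.Y418.BG.Play

set_option autoImplicit false
set_option linter.unusedVariables false
set_option linter.unusedSectionVars false

namespace Pool.Agent.Y418.BG.Hyper

open Finset Pool.Agent.Y418.BG.Crit Pool.Agent.Y418.BG.Play

variable {V : Type*} [DecidableEq V] {r q n : ℕ}

/-- the image of `J` on the transversal `φ` -/
def tri (e : Fin q × Fin n → V) (φ : Fin q → Fin n) (J : Finset (Fin q)) : Finset V :=
  J.image (fun i => e (i, φ i))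

/-- all edges of the transversal `φ` -/
def tset (r : ℕ) (e : Fin q × Fin n → V) (φ : Fin q → Fin n) : Finset (Finset V) :=
  (powersetCard r (univ : Finset (Fin q))).image (tri e φ)

abbrev Lev (q n : ℕ) := Finset (Fin q) × (Fin q → Fin n)

def lmem (κ : Lev q n) : Finset (Fin q → Fin n) :=
  univ.filter (fun φ => ∀ i ∈ κ.1, φ i = κ.2 i)

def lred (r : ℕ) (e : Fin q × Fin n → V) (κ : Lev q n) (φ : Fin q → Fin n) :
    Finset (Finset V) :=
  (powersetCard r κ.1ᶜ).image (tri e φ)

lemma tri_inj {e : Fin q × Fin n → V} (he : Function.Injective e) {φ φ' : Fin q → Fin n}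
    {J J' : Finset (Fin q)} (h : tri e φ J = tri e φ' J') : J = J' ∧ ∀ i ∈ J, φ i = φ' i := by
  have key : ∀ {φ φ' : Fin q → Fin n} {J J' : Finset (Fin q)}, tri e φ J = tri e φ' J' →
      ∀ i ∈ J, i ∈ J' ∧ φ i = φ' i := by
    intro φ φ' J J' h i hi
    have h1 : e (i, φ i) ∈ tri e φ J := mem_image_of_mem (fun i => e (i, φ i)) hi
    rw [h] at h1
    unfold tri at h1
    rw [mem_image] at h1
    obtain ⟨i', hi', h2⟩ := h1
    have h3 := he h2
    rw [Prod.mk.injEq] at h3
    obtain ⟨rfl, h4⟩ := h3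
    exact ⟨hi', h4.symm⟩
  refine ⟨?_, fun i hi => (key h i hi).2⟩
  ext i
  exact ⟨fun hi => (key h i hi).1, fun hi => (key h.symm i hi).1⟩

lemma lred_sub (e : Fin q × Fin n → V) (κ : Lev q n) (φ : Fin q → Fin n) :
    lred r e κ φ ⊆ tset r e φ := by
  unfold lred tset
  exact image_subset_image (powersetCard_mono (subset_univ _))

lemma lred_anti (e : Fin q × Fin n → V) {κ κ' : Lev q n} (h : κ.1 ⊆ κ'.1) (φ : Fin q → Fin n) :
    lred r e κ' φ ⊆ lred r e κ φ := by
  unfold lred
  exact image_subset_image (powersetCard_mono (compl_subset_compl.mpr h))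

lemma mem_lred {e : Fin q × Fin n → V} {κ : Lev q n} {φ : Fin q → Fin n} {u : Finset V} :
    u ∈ lred r e κ φ ↔ ∃ J : Finset (Fin q), Disjoint J κ.1 ∧ J.card = r ∧ tri e φ J = u := by
  unfold lred
  rw [mem_image]
  constructor
  · rintro ⟨J, hJ, h⟩
    rw [mem_powersetCard] at hJ
    exact ⟨J, (subset_compl_iff_disjoint_right).mp hJ.1, hJ.2, h⟩
  · rintro ⟨J, h1, h2, h3⟩
    exact ⟨J, mem_powersetCard.mpr ⟨(subset_compl_iff_disjoint_right).mpr h1, h2⟩, h3⟩

lemma dom_one {e : Fin q × Fin n → V} (he : Function.Injective e) (κ : Lev q n)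
    (φ₀ : Fin q → Fin n) (h0 : φ₀ ∈ lmem κ) (u : Finset V) (hu : u ∈ lred r e κ φ₀) :
    ∃ κ' : Lev q n, κ'.1.card = κ.1.card + r ∧
      ∀ φ ∈ lmem κ, u ∈ lred r e κ φ → φ ∈ lmem κ' ∧ lred r e κ' φ ⊆ lred r e κ φ := by
  obtain ⟨J, hJd, hJc, hJu⟩ := mem_lred.mp hu
  refine ⟨(κ.1 ∪ J, φ₀), ?_, ?_⟩
  · rw [card_union_of_disjoint hJd.symm, hJc]
  · intro φ hφ huφ
    obtain ⟨J', hJd', hJc', hJu'⟩ := mem_lred.mp huφ
    obtain ⟨rfl, hag⟩ := tri_inj he (hJu'.trans hJu.symm)
    refine ⟨?_, lred_anti e (subset_union_left) φ⟩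
    unfold lmem at hφ h0 ⊢
    simp only [mem_filter, mem_univ, true_and, mem_union] at hφ h0 ⊢
    intro i hi
    rcases hi with hi | hi
    · rw [hφ i hi, h0 i hi]
    · exact hag i hi

lemma dom_two {e : Fin q × Fin n → V} (he : Function.Injective e) (κ : Lev q n)
    (φ₀ : Fin q → Fin n) (h0 : φ₀ ∈ lmem κ) (u : Finset V) (hu : u ∈ lred r e κ φ₀)
    (v : Finset V) (hv : v ∈ lred r e κ φ₀) (huv : u ≠ v) :
    ∃ κ' : Lev q n, κ.1.card + (r + 1) ≤ κ'.1.card ∧
      ∀ φ ∈ lmem κ, u ∈ lred r e κ φ → v ∈ lred r e κ φ →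
        φ ∈ lmem κ' ∧ lred r e κ' φ ⊆ lred r e κ φ := by
  obtain ⟨J, hJd, hJc, hJu⟩ := mem_lred.mp hu
  obtain ⟨T, hTd, hTc, hTv⟩ := mem_lred.mp hv
  have hJT : J ≠ T := by
    rintro rfl; exact huv (hJu.symm.trans hTv)
  refine ⟨(κ.1 ∪ (J ∪ T), φ₀), ?_, ?_⟩
  · rw [card_union_of_disjoint (disjoint_union_right.mpr ⟨hJd.symm, hTd.symm⟩)]
    have h4 : r + 1 ≤ (J ∪ T).card := by
      by_contra hlt
      push Not at hlt
      have h1 : J ⊆ J ∪ T := subset_union_left
      have h2 : T ⊆ J ∪ T := subset_union_right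
      have h3 : J = J ∪ T := eq_of_subset_of_card_le h1 (by omega)
      have h4 : T = J ∪ T := eq_of_subset_of_card_le h2 (by omega)
      exact hJT (h3.trans h4.symm)
    omega
  · intro φ hφ huφ hvφ
    obtain ⟨J', hJd', hJc', hJu'⟩ := mem_lred.mp huφ
    obtain ⟨T', hTd', hTc', hTv'⟩ := mem_lred.mp hvφ
    obtain ⟨rfl, hag⟩ := tri_inj he (hJu'.trans hJu.symm)
    obtain ⟨rfl, hag'⟩ := tri_inj he (hTv'.trans hTv.symm)
    refine ⟨?_, lred_anti e (subset_union_left) φ⟩
    unfold lmem at hφ h0 ⊢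
    simp only [mem_filter, mem_univ, true_and, mem_union] at hφ h0 ⊢
    intro i hi
    rcases hi with hi | hi | hi
    · rw [hφ i hi, h0 i hi]
    · exact hag i hi
    · exact hag' i hi

lemma card_lmem (κ : Lev q n) : (lmem κ).card = n ^ (q - κ.1.card) := by
  have h : lmem κ = Fintype.piFinset (fun i => if i ∈ κ.1 then {κ.2 i} else (univ : Finset (Fin n))) := by
    ext φ
    unfold lmem
    simp only [mem_filter, mem_univ, true_and, Fintype.mem_piFinset]
    constructor
    · intro h i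
      split_ifs with hi
      · rw [mem_singleton]; exact h i hi
      · exact mem_univ _
    · intro h i hi
      have := h i
      rw [if_pos hi, mem_singleton] at this
      exact this
  rw [h, Fintype.card_piFinset]
  have h2 : ∀ i : Fin q, (if i ∈ κ.1 then ({κ.2 i} : Finset (Fin n)) else univ).card
      = if i ∈ κ.1 then 1 else n := by
    intro i; split_ifs <;> simp
  rw [prod_congr rfl (fun i _ => h2 i), prod_ite]
  simp only [prod_const_one, one_mul, prod_const]
  congr 1
  have : (univ.filter (fun i => i ∉ κ.1)) = κ.1ᶜ := by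
    ext i; simp
  rw [this, card_compl, Fintype.card_fin]

lemma card_lred {e : Fin q × Fin n → V} (he : Function.Injective e) (κ : Lev q n)
    (φ : Fin q → Fin n) : (lred r e κ φ).card = (q - κ.1.card).choose r := by
  unfold lred
  rw [card_image_of_injective, card_powersetCard, card_compl, Fintype.card_fin]
  intro J J' h
  exact (tri_inj he h).1

/-- deleting `t` vertices kills at most `t * choose (q-1) (r-1)` edges -/
lemma choose_le (q r : ℕ) (hr : 1 ≤ r) : ∀ t ≤ q,
    q.choose r ≤ (q - t).choose r + t * (q - 1).choose (r - 1) := by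
  intro t
  induction t with
  | zero => intro _; simp
  | succ t ih =>
    intro ht
    have h1 := ih (by omega)
    obtain ⟨s, rfl⟩ : ∃ s, r = s + 1 := ⟨r - 1, by omega⟩
    have e1 : s + 1 - 1 = s := by omega
    have h5 : (q - t).choose (s + 1) = (q - (t + 1)).choose s + (q - (t + 1)).choose (s + 1) := by
      have h2 : q - t = (q - (t + 1)) + 1 := by omega
      rw [h2]
      exact Nat.choose_succ_succ _ _
    rw [e1] at h1 ⊢
    rw [h5] at h1
    have h3 : (q - (t + 1)).choose s ≤ (q - 1).choose s := Nat.choose_le_choose s (by omega)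
    have h4 : (t + 1) * (q - 1).choose s = t * (q - 1).choose s + (q - 1).choose s := by ring
    rw [h4]
    omega

/-- the numerical parameters -/
structure Par (b r q n : ℕ) where
  hb : 1 ≤ b
  hr : 1 ≤ r
  hq : 1 ≤ q
  hn : 1 ≤ n
  rho : ℝ
  lam : ℝ
  rho_pos : 0 < rho
  rho_le : rho ≤ 1
  lam_ge : 1 ≤ lam
  c1 : 4 * (b * rho ^ r) ≤ 1
  c2 : lam * (b ^ 2 * rho ^ r) ≤ 1
  c3 : 3 * ((2 : ℝ) ^ q * (n : ℝ) ^ q) ≤ Real.exp lam
  c4 : 8 * lam * (1 + b : ℝ) ^ ((q - 1).choose (r - 1)) ≤ n * rho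
  c5 : ((q : ℝ) * n) ^ r * (7 * lam * (b ^ 2 * rho ^ (r + 1))
    + 19 * lam ^ 2 * (b ^ 2 * rho ^ r) ^ 2) ≤ 1 / 4

section system
variable {b : ℕ}

noncomputable def F0 (b r q n : ℕ) : ℝ := (n : ℝ) ^ q * (1 / (1 + b : ℝ)) ^ (q.choose r)

lemma F0_pos (hn : 1 ≤ n) : 0 < F0 b r q n := by
  unfold F0
  have : (0 : ℝ) < n := by exact_mod_cast hn
  positivity

/-- the system of levels -/
noncomputable def theSys (P : Par b r q n) (e : Fin q × Fin n → V) (he : Function.Injective e) :
    Sys (Finset V) (Fin q → Fin n) (Lev q n) b where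
  A := tset r e
  mem := lmem
  red := lred r e
  K := univ.filter (fun κ => κ.1.Nonempty)
  base := (∅, fun _ => ⟨0, P.hn⟩)
  cap := fun κ => F0 b r q n * P.rho ^ κ.1.card
  e1 := P.rho ^ r
  e2 := P.rho ^ (r + 1)
  lam := P.lam
  red_sub := lred_sub e
  red_base := by
    intro φ
    unfold lred tset
    simp
  cap_pos := by
    intro κ
    exact mul_pos (F0_pos P.hn) (pow_pos P.rho_pos _)
  K_ne := by
    refine ⟨({⟨0, P.hq⟩}, fun _ => ⟨0, P.hn⟩), ?_⟩
    rw [mem_filter]
    exact ⟨mem_univ _, singleton_nonempty _⟩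
  one := by
    intro κ φ₀ h0 u hu
    obtain ⟨κ', hc, hdom⟩ := dom_one he κ φ₀ h0 u hu
    refine ⟨κ', ?_, ?_, hdom⟩
    · rw [mem_filter]
      refine ⟨mem_univ _, ?_⟩
      rw [← card_pos, hc]
      have := P.hr
      omega
    · rw [hc]
      apply le_of_eq
      ring
  two := by
    intro κ φ₀ h0 u hu v hv huv
    obtain ⟨κ', hc, hdom⟩ := dom_two he κ φ₀ h0 u hu v hv huv
    refine ⟨κ', ?_, ?_, hdom⟩
    · rw [mem_filter]
      refine ⟨mem_univ _, ?_⟩
      rw [← card_pos]; omega
    · have h1 : P.rho ^ κ'.1.card ≤ P.rho ^ (κ.1.card + (r + 1)) :=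
        pow_le_pow_of_le_one P.rho_pos.le P.rho_le hc
      have h2 := mul_le_mul_of_nonneg_left h1 (F0_pos (b := b) (r := r) (q := q) P.hn).le
      refine h2.trans (le_of_eq ?_)
      ring
  lam_ge := P.lam_ge
  e2_nonneg := pow_nonneg P.rho_pos.le _
  e2_le := pow_le_pow_of_le_one P.rho_pos.le P.rho_le (by omega)
  b_ge := P.hb
  e1_le := P.c1
  lam_e1 := P.c2
  K_le := by
    refine le_trans ?_ P.c3
    have h1 : ((univ : Finset (Lev q n)).filter (fun κ => κ.1.Nonempty)).card
        ≤ 2 ^ q * n ^ q := by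
      refine (card_le_univ _).trans (le_of_eq ?_)
      simp [Lev]
    have h2 : (((univ : Finset (Lev q n)).filter (fun κ => κ.1.Nonempty)).card : ℝ)
        ≤ (2 : ℝ) ^ q * (n : ℝ) ^ q := by exact_mod_cast h1
    linarith

lemma wt_empty {E : Type*} [DecidableEq E] (s a : Finset E) :
    wt b ∅ ∅ s a = (1 / (1 + b : ℝ)) ^ a.card := by
  unfold wt
  simp

lemma val_start (P : Par b r q n) (e : Fin q × Fin n → V) (he : Function.Injective e)
    (κ : Lev q n) :
    (theSys P e he).val ∅ ∅ κ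
      = (n : ℝ) ^ (q - κ.1.card) * (1 / (1 + b : ℝ)) ^ ((q - κ.1.card).choose r) := by
  unfold Sys.val
  have h : ∀ φ ∈ (theSys P e he).mem κ,
      wt b ∅ ∅ ((theSys P e he).A φ) ((theSys P e he).red κ φ)
        = (1 / (1 + b : ℝ)) ^ ((q - κ.1.card).choose r) := by
    intro φ _
    rw [wt_empty]
    congr 1
    exact card_lred he κ φ
  rw [sum_congr rfl h, sum_const, nsmul_eq_mul]
  congr 1
  have : ((theSys P e he).mem κ).card = n ^ (q - κ.1.card) := card_lmem κ
  rw [this]
  push_cast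
  rfl

lemma base_start (P : Par b r q n) (e : Fin q × Fin n → V) (he : Function.Injective e) :
    (theSys P e he).val ∅ ∅ (theSys P e he).base
      = (theSys P e he).cap (theSys P e he).base := by
  rw [val_start]
  unfold theSys F0
  simp

lemma start_ineq (P : Par b r q n) (t : ℕ) (ht : 1 ≤ t) (htq : t ≤ q) :
    (n : ℝ) ^ (q - t) * (1 / (1 + b : ℝ)) ^ ((q - t).choose r) * (8 * P.lam)
      ≤ F0 b r q n * P.rho ^ t := by
  have hn0 : (0 : ℝ) < n := by exact_mod_cast P.hn
  have hB := B_pos b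
  have hB1 : (1 : ℝ) ≤ 1 + b := by
    have : (0 : ℝ) ≤ b := Nat.cast_nonneg b
    linarith
  have hl := P.lam_ge
  set D := (q - 1).choose (r - 1) with hD
  have h1 : (n : ℝ) ^ q = (n : ℝ) ^ (q - t) * (n : ℝ) ^ t := by
    rw [← pow_add]; congr 1; omega
  have h3 : (1 / (1 + b : ℝ)) ^ ((q - t).choose r + t * D) ≤ (1 / (1 + b : ℝ)) ^ (q.choose r) := by
    apply pow_le_pow_of_le_one (by positivity)
    · rw [div_le_one hB]; exact hB1
    · exact choose_le q r P.hr t htq
  have h5 : 8 * P.lam ≤ ((1 / (1 + b : ℝ)) ^ D) ^ t * ((n : ℝ) ^ t * P.rho ^ t) := by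
    have h6 : 8 * P.lam ≤ (1 / (1 + b : ℝ)) ^ D * (n * P.rho) := by
      have := P.c4
      rw [one_div, inv_pow, inv_mul_eq_div, le_div_iff₀ (by positivity)]
      exact this
    have h7 : (1 : ℝ) ≤ (1 / (1 + b : ℝ)) ^ D * (n * P.rho) := by linarith
    calc 8 * P.lam ≤ (1 / (1 + b : ℝ)) ^ D * (n * P.rho) := h6
      _ = ((1 / (1 + b : ℝ)) ^ D * (n * P.rho)) ^ 1 := (pow_one _).symm
      _ ≤ ((1 / (1 + b : ℝ)) ^ D * (n * P.rho)) ^ t := pow_le_pow_right₀ h7 ht
      _ = _ := by rw [mul_pow, mul_pow]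
  have hr0 := P.rho_pos
  calc (n : ℝ) ^ (q - t) * (1 / (1 + b : ℝ)) ^ ((q - t).choose r) * (8 * P.lam)
      ≤ (n : ℝ) ^ (q - t) * (1 / (1 + b : ℝ)) ^ ((q - t).choose r)
          * (((1 / (1 + b : ℝ)) ^ D) ^ t * ((n : ℝ) ^ t * P.rho ^ t)) :=
        mul_le_mul_of_nonneg_left h5 (by positivity)
    _ = (n : ℝ) ^ (q - t) * ((n : ℝ) ^ t * P.rho ^ t)
          * (1 / (1 + b : ℝ)) ^ ((q - t).choose r + t * D) := by
        rw [pow_add, mul_comm t D, pow_mul]; ring
    _ ≤ (n : ℝ) ^ (q - t) * ((n : ℝ) ^ t * P.rho ^ t) * (1 / (1 + b : ℝ)) ^ (q.choose r) :=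
        mul_le_mul_of_nonneg_left h3 (by positivity)
    _ = F0 b r q n * P.rho ^ t := by
        unfold F0
        rw [h1]; ring

lemma z_start (P : Par b r q n) (e : Fin q × Fin n → V) (he : Function.Injective e)
    (κ : Lev q n) (hκ : κ ∈ (theSys P e he).K) :
    (theSys P e he).lam * (theSys P e he).z ∅ ∅ κ ≤ 1 / 8 := by
  have hne : κ.1.Nonempty := by
    have : κ ∈ (univ : Finset (Lev q n)).filter (fun κ => κ.1.Nonempty) := hκ
    rw [mem_filter] at this
    exact this.2
  have ht : 1 ≤ κ.1.card := hne.card_pos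
  have htq : κ.1.card ≤ q := by
    have := card_le_univ κ.1
    simpa using this
  have h1 := start_ineq P κ.1.card ht htq
  have hcap := (theSys P e he).cap_pos κ
  have hl := P.lam_ge
  unfold Sys.z
  rw [val_start, mul_div_assoc', div_le_iff₀ hcap]
  have h2 : (theSys P e he).cap κ = F0 b r q n * P.rho ^ κ.1.card := rfl
  have h3 : (theSys P e he).lam = P.lam := rfl
  rw [h2, h3]
  linarith

/-- the sub-board on which the virtual game is played -/
def subBoard (r : ℕ) (e : Fin q × Fin n → V) : Finset (Finset V) :=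
  powersetCard r ((univ : Finset (Fin q × Fin n)).image e)

lemma card_subBoard (e : Fin q × Fin n → V) (he : Function.Injective e) :
    ((subBoard r e).card : ℝ) ≤ ((q : ℝ) * n) ^ r := by
  have h1 : (subBoard r e).card ≤ (q * n) ^ r := by
    unfold subBoard
    rw [card_powersetCard, card_image_of_injective _ he]
    refine (Nat.choose_le_pow _ r).trans (le_of_eq ?_)
    simp
  exact_mod_cast h1

lemma err_bound (P : Par b r q n) (e : Fin q × Fin n → V) (he : Function.Injective e) :
    ((subBoard r e).card : ℝ) * (theSys P e he).err ≤ 1 / 4 := by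
  refine le_trans (mul_le_mul_of_nonneg_right (card_subBoard e he) (theSys P e he).err_nonneg) ?_
  exact P.c5

/-- Maker wins the clique game on a large vertex set. -/
theorem clique_forces [Fintype V] {a : ℕ} (ha : 1 ≤ a) (P : Par b r q n)
    (hV : q * n ≤ Fintype.card V) :
    Forces a b (powersetCard r (univ : Finset V))
      (fun M => ∃ S : Finset V, S.card = q ∧ powersetCard r S ⊆ M) ∅ ∅ := by
  have hcard : Fintype.card (Fin q × Fin n) ≤ Fintype.card V := by
    simp only [Fintype.card_prod, Fintype.card_fin]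
    exact hV
  obtain ⟨e⟩ := Function.Embedding.nonempty_of_card_le hcard
  have he := e.injective
  refine forces_start (theSys P e he) ha (subBoard r e) ?_ ?_ ?_ ?_ (err_bound P e he)
    (base_start P e he) (z_start P e he)
  · unfold subBoard
    exact powersetCard_mono (subset_univ _)
  · intro φ u hu
    have hu' : u ∈ tset r e φ := hu
    unfold tset at hu'
    rw [mem_image] at hu'
    obtain ⟨J, hJ, rfl⟩ := hu'
    rw [mem_powersetCard] at hJ
    unfold subBoard
    rw [mem_powersetCard]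
    constructor
    · intro v hv
      unfold tri at hv
      rw [mem_image] at hv ⊢
      obtain ⟨i, _, rfl⟩ := hv
      exact ⟨(i, φ i), mem_univ _, rfl⟩
    · unfold tri
      rw [card_image_of_injective, hJ.2]
      intro i i' h
      have := he h
      rw [Prod.mk.injEq] at this
      exact this.1
  · rintro M M' hM ⟨S, hS1, hS2⟩
    exact ⟨S, hS1, hS2.trans hM⟩
  · intro φ M hM
    have hinj : Function.Injective (fun i : Fin q => e (i, φ i)) := by
      intro i i' h
      have := he h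
      rw [Prod.mk.injEq] at this
      exact this.1
    refine ⟨(univ : Finset (Fin q)).image (fun i => e (i, φ i)), ?_, ?_⟩
    · rw [card_image_of_injective _ hinj]; simp
    · intro T hT
      apply hM
      show T ∈ tset r e φ
      rw [mem_powersetCard] at hT
      unfold tset
      rw [mem_image]
      refine ⟨univ.filter (fun i => e (i, φ i) ∈ T), ?_, ?_⟩
      · rw [mem_powersetCard]
        refine ⟨subset_univ _, ?_⟩
        rw [← hT.2, ← card_image_of_injective _ hinj]
        congr 1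
        ext v
        simp only [mem_image, mem_filter, mem_univ, true_and]
        constructor
        · rintro ⟨i, h1, rfl⟩; exact h1
        · intro hv
          have := hT.1 hv
          rw [mem_image] at this
          obtain ⟨i, _, rfl⟩ := this
          exact ⟨i, hv, rfl⟩
      · unfold tri
        ext v
        simp only [mem_image, mem_filter, mem_univ, true_and]
        constructor
        · rintro ⟨i, h1, rfl⟩; exact h1
        · intro hv
          have := hT.1 hv
          rw [mem_image] at this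
          obtain ⟨i, _, rfl⟩ := this
          exact ⟨i, hv, rfl⟩

end system

end Pool.Agent.Y418.BG.Hyper
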