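import Mathlib
import Pool.Agent.Y418.BG.Hyper

set_option autoImplicit false

namespace Pool.Agent.Y418.BG.Num

open Finset Filter Asymptotics Pool.Agent.Y418.BG.Hyper

/-- choice of the numerical parameters -/
lemma exists_par {b r q n : ℕ} (hb : 1 ≤ b) (hr : 2 ≤ r) (hq : 1 ≤ q) (lam : ℝ) (hlam : 1 ≤ lam)
    (c3 : 3 * ((2 : ℝ) ^ q * (n : ℝ) ^ q) ≤ Real.exp lam)
    (hn : 56 * (q : ℝ) ^ r * (b : ℝ) ^ 2 * lam *
      (8 * lam * (1 + b : ℝ) ^ ((q - 1).choose (r - 1))) ^ (r + 1) ≤ n) :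
    Nonempty (Par b r q n) := by
  set w : ℝ := 8 * lam * (1 + b : ℝ) ^ ((q - 1).choose (r - 1)) with hw
  clear_value w
  have hb' : (1 : ℝ) ≤ b := by exact_mod_cast hb
  have hq' : (1 : ℝ) ≤ q := by exact_mod_cast hq
  have hB : (1 : ℝ) ≤ (1 + b : ℝ) ^ ((q - 1).choose (r - 1)) := one_le_pow₀ (by linarith)
  have hw1 : 1 ≤ w := by rw [hw]; nlinarith
  have hw0 : 0 < w := by linarith
  have hb2 : (1 : ℝ) ≤ (b : ℝ) ^ 2 := one_le_pow₀ hb'
  have hs0 : (1 : ℝ) ≤ 56 * (b : ℝ) ^ 2 * lam := by nlinarith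
  set s : ℝ := 56 * (b : ℝ) ^ 2 * lam with hs
  clear_value s
  have hn' : s * ((q : ℝ) ^ r * w ^ (r + 1)) ≤ n := by
    refine le_trans (le_of_eq ?_) hn
    rw [hs]; ring
  have hqr : (q : ℝ) ≤ (q : ℝ) ^ r := by
    calc (q : ℝ) = (q : ℝ) ^ 1 := (pow_one _).symm
      _ ≤ _ := pow_le_pow_right₀ hq' (by omega)
  have hwr : w ^ 2 ≤ w ^ (r + 1) := pow_le_pow_right₀ hw1 (by omega)
  have hw2 : w ≤ w ^ 2 := by nlinarith
  have hn2 : s * ((q : ℝ) * w ^ 2) ≤ n := by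
    refine le_trans ?_ hn'
    apply mul_le_mul_of_nonneg_left _ (by linarith)
    exact mul_le_mul hqr hwr (by positivity) (by positivity)
  have hn1 : s * w ≤ n := by
    refine le_trans ?_ hn2
    apply mul_le_mul_of_nonneg_left _ (by linarith)
    nlinarith
  have hn0 : (0 : ℝ) < n := by
    have : 0 < s * w := by positivity
    linarith
  have hnn : 1 ≤ n := by
    have : 0 < n := by exact_mod_cast hn0
    omega
  set ρ : ℝ := w / n with hρ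
  clear_value ρ
  have hρ0 : 0 < ρ := by rw [hρ]; exact div_pos hw0 hn0
  have hnρ : (n : ℝ) * ρ = w := by rw [hρ]; field_simp
  have hsρ : s * ρ ≤ 1 := by
    rw [hρ, mul_div_assoc', div_le_one hn0]; exact hn1
  have hρ1 : ρ ≤ 1 := by nlinarith
  have hρr : ρ ^ r ≤ ρ := by
    calc ρ ^ r ≤ ρ ^ 1 := pow_le_pow_of_le_one hρ0.le hρ1 (by omega)
      _ = ρ := pow_one _
  refine ⟨⟨hb, by omega, hq, hnn, ρ, lam, hρ0, hρ1, hlam, ?_, ?_, c3, ?_, ?_⟩⟩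
  · have h1 : b * ρ ^ r ≤ b * ρ := mul_le_mul_of_nonneg_left hρr (by linarith)
    have h2 : b * ρ ≤ (b : ℝ) ^ 2 * lam * ρ := by
      apply mul_le_mul_of_nonneg_right _ hρ0.le
      nlinarith
    have h3 : 56 * ((b : ℝ) ^ 2 * lam * ρ) ≤ 1 := by
      calc 56 * ((b : ℝ) ^ 2 * lam * ρ) = s * ρ := by rw [hs]; ring
        _ ≤ 1 := hsρ
    linarith
  · have h1 : lam * (b ^ 2 * ρ ^ r) ≤ lam * (b ^ 2 * ρ) :=
      mul_le_mul_of_nonneg_left (mul_le_mul_of_nonneg_left hρr (by positivity)) (by linarith)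
    have h3 : 56 * (lam * ((b : ℝ) ^ 2 * ρ)) ≤ 1 := by
      calc 56 * (lam * ((b : ℝ) ^ 2 * ρ)) = s * ρ := by rw [hs]; ring
        _ ≤ 1 := hsρ
    have h4 : 0 ≤ lam * ((b : ℝ) ^ 2 * ρ) := by positivity
    linarith
  · rw [hnρ, hw]
  · have h1 : ((q : ℝ) * n) ^ r * (7 * lam * (b ^ 2 * ρ ^ (r + 1))) ≤ 1 / 8 := by
      have e1 : ((q : ℝ) * n) ^ r * (7 * lam * (b ^ 2 * ρ ^ (r + 1)))
          = (1 / 8) * ((s * ((q : ℝ) ^ r * w ^ (r + 1))) / n) := by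
        have e2 : ρ ^ (r + 1) = ρ ^ r * ρ := pow_succ _ _
        have e3 : ((q : ℝ) * n) ^ r * (7 * lam * (b ^ 2 * (ρ ^ r * ρ)))
            = 7 * lam * b ^ 2 * (q : ℝ) ^ r * (((n : ℝ) * ρ) ^ r * ρ) := by
          rw [mul_pow, mul_pow]; ring
        rw [e2, e3, hnρ, hρ, hs, pow_succ]
        ring
      rw [e1]
      have : (s * ((q : ℝ) ^ r * w ^ (r + 1))) / n ≤ 1 := by
        rw [div_le_one hn0]; exact hn'
      linarith
    have h2 : ((q : ℝ) * n) ^ r * (19 * lam ^ 2 * (b ^ 2 * ρ ^ r) ^ 2) ≤ 1 / 8 := by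
      have e1 : ((q : ℝ) * n) ^ r * (19 * lam ^ 2 * (b ^ 2 * ρ ^ r) ^ 2)
          = 19 / 56 ^ 2 * (s ^ 2 * ((q : ℝ) * w * ρ) ^ r) := by
        have e3 : ((q : ℝ) * n) ^ r * (19 * lam ^ 2 * (b ^ 2 * ρ ^ r) ^ 2)
            = 19 * lam ^ 2 * (b ^ 2) ^ 2 * ((q : ℝ) ^ r * ((n : ℝ) * ρ) ^ r * ρ ^ r) := by
          rw [mul_pow, mul_pow]; ring
        rw [e3, hnρ, hs, mul_pow, mul_pow]
        ring
      have h3 : (q : ℝ) * w * ρ ≤ 1 / s := by
        rw [hρ, mul_div_assoc', div_le_div_iff₀ hn0 (by linarith)]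
        nlinarith
      have h4 : ((q : ℝ) * w * ρ) ^ r ≤ (1 / s) ^ 2 := by
        calc ((q : ℝ) * w * ρ) ^ r ≤ (1 / s) ^ r := pow_le_pow_left₀ (by positivity) h3 r
          _ ≤ (1 / s) ^ 2 := by
            apply pow_le_pow_of_le_one (by positivity) _ hr
            rw [div_le_one (by linarith)]; exact hs0
      have h5 : s ^ 2 * ((q : ℝ) * w * ρ) ^ r ≤ 1 := by
        calc s ^ 2 * ((q : ℝ) * w * ρ) ^ r ≤ s ^ 2 * (1 / s) ^ 2 :=
              mul_le_mul_of_nonneg_left h4 (by positivity)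
          _ = 1 := by
            rw [← mul_pow, mul_one_div_cancel (by linarith), one_pow]
      rw [e1]
      nlinarith
    calc ((q : ℝ) * n) ^ r * (7 * lam * (b ^ 2 * ρ ^ (r + 1)) + 19 * lam ^ 2 * (b ^ 2 * ρ ^ r) ^ 2)
        = ((q : ℝ) * n) ^ r * (7 * lam * (b ^ 2 * ρ ^ (r + 1)))
          + ((q : ℝ) * n) ^ r * (19 * lam ^ 2 * (b ^ 2 * ρ ^ r) ^ 2) := by ring
      _ ≤ 1 / 8 + 1 / 8 := add_le_add h1 h2
      _ = 1 / 4 := by norm_num

/-- the order of the cliques that Maker gets -/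
noncomputable def ub (b r N : ℕ) : ℝ :=
  (((r - 1).factorial : ℝ) / (r + 1) * Real.logb (1 + b) N) ^ (1 / ((r : ℝ) - 1))

/-- the number of levels is small -/
lemma levels_le {r q n N : ℕ} {C lB L : ℝ} (hr : 2 ≤ r) (hq1 : (1 : ℝ) ≤ q)
    (hN0 : (0 : ℝ) < N) (hnN : (n : ℝ) ≤ N) (hlB : 0 < lB) (hLlog : L * lB = Real.log N)
    (hLq : L ≤ C * (q : ℝ) ^ (r - 1)) (hqC : Real.log 3 + Real.log 2 + C * lB ≤ q) :
    3 * ((2 : ℝ) ^ q * (n : ℝ) ^ q) ≤ Real.exp ((q : ℝ) ^ (r + 1)) := by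
  have hlogNq : Real.log N ≤ C * lB * (q : ℝ) ^ (r - 1) := by
    rw [← hLlog]
    calc L * lB ≤ C * (q : ℝ) ^ (r - 1) * lB := mul_le_mul_of_nonneg_right hLq hlB.le
      _ = _ := by ring
  have hq0 : (0 : ℝ) < q := by linarith
  have h9 : 3 * ((2 : ℝ) ^ q * (n : ℝ) ^ q) ≤ 3 * ((2 : ℝ) ^ q * (N : ℝ) ^ q) := by
    apply mul_le_mul_of_nonneg_left _ (by norm_num)
    apply mul_le_mul_of_nonneg_left _ (by positivity)
    exact pow_le_pow_left₀ (by positivity) hnN q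
  refine h9.trans ?_
  have h10 : 3 * ((2 : ℝ) ^ q * (N : ℝ) ^ q)
      = Real.exp (Real.log 3 + q * Real.log 2 + q * Real.log N) := by
    rw [Real.exp_add, Real.exp_add, Real.exp_log (by norm_num), Real.exp_nat_mul,
      Real.exp_nat_mul, Real.exp_log (by norm_num), Real.exp_log hN0]
    ring
  rw [h10]
  apply Real.exp_le_exp.mpr
  have hpow : (q : ℝ) * (q : ℝ) ^ (r - 1) = (q : ℝ) ^ r := by
    rw [← pow_succ']; congr 1; omega
  have h11 : (q : ℝ) ≤ (q : ℝ) ^ r := by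
    calc (q : ℝ) = (q : ℝ) ^ 1 := (pow_one _).symm
      _ ≤ _ := pow_le_pow_right₀ hq1 (by omega)
  have h12 : (1 : ℝ) ≤ (q : ℝ) ^ r := one_le_pow₀ hq1
  have hl2 : 0 ≤ Real.log 2 := Real.log_nonneg (by norm_num)
  have hl3 : 0 ≤ Real.log 3 := Real.log_nonneg (by norm_num)
  have t1 : Real.log 3 ≤ Real.log 3 * (q : ℝ) ^ r := le_mul_of_one_le_right hl3 h12
  have t2 : q * Real.log 2 ≤ (q : ℝ) ^ r * Real.log 2 := mul_le_mul_of_nonneg_right h11 hl2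
  have t3 : q * Real.log N ≤ q * (C * lB * (q : ℝ) ^ (r - 1)) :=
    mul_le_mul_of_nonneg_left hlogNq hq0.le
  have t4 : q * (C * lB * (q : ℝ) ^ (r - 1)) = C * lB * (q : ℝ) ^ r := by
    rw [← hpow]; ring
  have t5 : (Real.log 3 + Real.log 2 + C * lB) * (q : ℝ) ^ r ≤ q * (q : ℝ) ^ r :=
    mul_le_mul_of_nonneg_right hqC (by positivity)
  have t6 : q * (q : ℝ) ^ r = (q : ℝ) ^ (r + 1) := by rw [pow_succ]; ring
  rw [← t6]
  rw [t4] at t3
  have t7 : (Real.log 3 + Real.log 2 + C * lB) * (q : ℝ) ^ r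
      = Real.log 3 * (q : ℝ) ^ r + (q : ℝ) ^ r * Real.log 2 + C * lB * (q : ℝ) ^ r := by ring
  rw [t7] at t5
  linarith

/-- the number of edges at a vertex -/
lemma degree_le {r q : ℕ} {c L u ε : ℝ} (hr : 2 ≤ r) (hε : 0 < ε) (h1ε : 0 < 1 - ε)
    (hc : c = ((r - 1).factorial : ℝ) / (r + 1)) (hL0 : 0 ≤ L)
    (hupow : u ^ (r - 1) = c * L) (hqle : (q : ℝ) ≤ (1 - ε) * u) :
    (((q - 1).choose (r - 1) : ℕ) : ℝ) * (r + 1) ≤ (1 - ε) * L := by
  have hfac : (0 : ℝ) < ((r - 1).factorial : ℝ) := by exact_mod_cast Nat.factorial_pos _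
  have hc0 : 0 < c := by rw [hc]; positivity
  have e1 : (((q - 1).choose (r - 1) : ℕ) : ℝ)
      ≤ ((q - 1 : ℕ) : ℝ) ^ (r - 1) / ((r - 1).factorial : ℝ) :=
    Nat.choose_le_pow_div (α := ℝ) (r - 1) (q - 1)
  have e2 : (((q - 1 : ℕ)) : ℝ) ≤ (1 - ε) * u := by
    refine le_trans ?_ hqle
    exact_mod_cast Nat.sub_le q 1
  have e3 : (((q - 1 : ℕ)) : ℝ) ^ (r - 1) ≤ ((1 - ε) * u) ^ (r - 1) :=
    pow_le_pow_left₀ (Nat.cast_nonneg _) e2 _
  have e4 : ((1 - ε) * u) ^ (r - 1) ≤ (1 - ε) * (c * L) := by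
    rw [mul_pow, hupow]
    apply mul_le_mul_of_nonneg_right _ (by positivity)
    calc (1 - ε) ^ (r - 1) ≤ (1 - ε) ^ 1 :=
          pow_le_pow_of_le_one h1ε.le (by linarith) (by omega)
      _ = 1 - ε := pow_one _
  have e5 : (((q - 1).choose (r - 1) : ℕ) : ℝ) ≤ (1 - ε) * (c * L) / ((r - 1).factorial : ℝ) :=
    e1.trans (div_le_div_of_nonneg_right (e3.trans e4) hfac.le)
  have e6 : (1 - ε) * (c * L) / ((r - 1).factorial : ℝ) * (r + 1) = (1 - ε) * L := by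
    rw [hc]
    have hr0 : (0 : ℝ) < (r : ℝ) + 1 := by positivity
    field_simp
  rw [← e6]
  exact mul_le_mul_of_nonneg_right e5 (by positivity)

/-- the size of the parts -/
lemma size_le {b r q D N M : ℕ} {K C ε B : ℝ} (hM : M = r + (r + 1) * (r + 2) + 1)
    (hq1 : (1 : ℝ) ≤ q) (hN0 : (0 : ℝ) < N) (hB : 0 < B)
    (hqK : (q : ℝ) ≤ K) (hC : C = 2 * (56 * 8 ^ (r + 1) * (b : ℝ) ^ 2) * K ^ M)
    (hBD : (B ^ D) ^ (r + 1) ≤ (N : ℝ) ^ (1 - ε)) (h1 : C ≤ (N : ℝ) ^ ε) :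
    56 * (q : ℝ) ^ r * (b : ℝ) ^ 2 * (q : ℝ) ^ (r + 1) *
          (8 * (q : ℝ) ^ (r + 1) * B ^ D) ^ (r + 1) * (2 * q) ≤ N := by
  have hsplit : (N : ℝ) = (N : ℝ) ^ (1 - ε) * (N : ℝ) ^ ε := by
    rw [← Real.rpow_add hN0]; simp
  have hqM : (q : ℝ) ^ M ≤ K ^ M := pow_le_pow_left₀ (by positivity) hqK M
  have hNε0 : 0 ≤ (N : ℝ) ^ (1 - ε) := Real.rpow_nonneg hN0.le _
  have hpw : (q : ℝ) ^ (r + (r + 1) * (r + 2) + 1)
      = (q : ℝ) ^ r * ((q : ℝ) ^ (r + 1) * ((q : ℝ) ^ (r + 1)) ^ (r + 1)) * q := by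
    rw [← pow_mul, ← pow_add, ← pow_add, ← pow_succ]
    congr 1
    ring
  have hK : 0 ≤ K := by linarith
  have e1 : 56 * (q : ℝ) ^ r * (b : ℝ) ^ 2 * (q : ℝ) ^ (r + 1) *
        (8 * (q : ℝ) ^ (r + 1) * B ^ D) ^ (r + 1) * (2 * q)
      = 2 * (56 * 8 ^ (r + 1) * (b : ℝ) ^ 2) * (q : ℝ) ^ M * (B ^ D) ^ (r + 1) := by
    rw [hM, hpw, mul_pow (8 * (q : ℝ) ^ (r + 1)) (B ^ D) (r + 1), mul_pow 8 _ (r + 1)]
    ring
  have e2 : 2 * (56 * 8 ^ (r + 1) * (b : ℝ) ^ 2) * (q : ℝ) ^ M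
      ≤ 2 * (56 * 8 ^ (r + 1) * (b : ℝ) ^ 2) * K ^ M :=
    mul_le_mul_of_nonneg_left hqM (by positivity)
  have e3 : 0 ≤ 2 * (56 * 8 ^ (r + 1) * (b : ℝ) ^ 2) * K ^ M := by positivity
  rw [e1, hsplit]
  calc 2 * (56 * 8 ^ (r + 1) * (b : ℝ) ^ 2) * (q : ℝ) ^ M * (B ^ D) ^ (r + 1)
      ≤ 2 * (56 * 8 ^ (r + 1) * (b : ℝ) ^ 2) * K ^ M * (N : ℝ) ^ (1 - ε) :=
        mul_le_mul e2 hBD (by positivity) e3
    _ ≤ (N : ℝ) ^ ε * (N : ℝ) ^ (1 - ε) := by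
        rw [← hC]
        exact mul_le_mul_of_nonneg_right h1 hNε0
    _ = (N : ℝ) ^ (1 - ε) * (N : ℝ) ^ ε := mul_comm _ _

/-- For large `N` and `q` not above the bound there are parameters. -/
lemma eventually_par {b r : ℕ} (hb : 1 ≤ b) (hr : 2 ≤ r) {ε : ℝ} (hε : 0 < ε) (hε1 : ε < 1) :
    ∀ᶠ N : ℕ in atTop, ∃ n, ⌊(1 - ε) * ub b r N⌋₊ * n ≤ N ∧
      Nonempty (Par b r ⌊(1 - ε) * ub b r N⌋₊ n) := by
  have hbR : (1 : ℝ) ≤ b := by exact_mod_cast hb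
  have hB1 : (1 : ℝ) < 1 + b := by linarith
  have hB0 : (0 : ℝ) < 1 + b := by linarith
  have hlB : 0 < Real.log (1 + b : ℝ) := Real.log_pos hB1
  have hrR : (2 : ℝ) ≤ r := by exact_mod_cast hr
  have hr1 : (0 : ℝ) < (r : ℝ) - 1 := by linarith
  have hr1' : (((r - 1 : ℕ)) : ℝ) = (r : ℝ) - 1 := by
    rw [Nat.cast_sub (by omega)]; norm_num
  set c : ℝ := ((r - 1).factorial : ℝ) / (r + 1) with hc
  have hfac : (0 : ℝ) < ((r - 1).factorial : ℝ) := by exact_mod_cast Nat.factorial_pos _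
  have hc0 : 0 < c := by rw [hc]; positivity
  have h1ε : 0 < 1 - ε := by linarith
  -- limits
  have hL : Tendsto (fun N : ℕ => Real.logb (1 + b : ℝ) N) atTop atTop :=
    (Real.tendsto_logb_atTop hB1).comp tendsto_natCast_atTop_atTop
  have hu : Tendsto (fun N : ℕ => ub b r N) atTop atTop := by
    unfold ub
    exact (tendsto_rpow_atTop (by positivity)).comp (hL.const_mul_atTop hc0)
  have hqt : Tendsto (fun N : ℕ => (1 - ε) * ub b r N) atTop atTop := hu.const_mul_atTop h1ε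
  -- the constants
  set C1 : ℝ := (2 / (1 - ε)) ^ (r - 1) / c with hC1
  have hC10 : 0 < C1 := by rw [hC1]; positivity
  set C2 : ℝ := Real.log 3 + Real.log 2 + C1 * Real.log (1 + b) with hC2
  set M : ℕ := r + (r + 1) * (r + 2) + 1 with hM
  set C3 : ℝ := 2 * (56 * 8 ^ (r + 1) * (b : ℝ) ^ 2) * (c / Real.log (1 + b)) ^ M with hC3
  have hC30 : 0 < C3 := by rw [hC3]; positivity
  have hlo : ∀ᶠ N : ℕ in atTop, C3 * Real.log N ^ M ≤ (N : ℝ) ^ ε := by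
    have h1 := (isLittleO_log_rpow_rpow_atTop (s := ε) (M : ℝ) hε).bound
      (show (0 : ℝ) < 1 / C3 by positivity)
    have h2 := tendsto_natCast_atTop_atTop (R := ℝ) |>.eventually h1
    filter_upwards [h2, eventually_ge_atTop 1] with N hN hN1
    have hN' : (1 : ℝ) ≤ N := by exact_mod_cast hN1
    rw [Real.norm_of_nonneg (Real.rpow_nonneg (Real.log_nonneg hN') _),
      Real.norm_of_nonneg (Real.rpow_nonneg (by linarith) _), Real.rpow_natCast] at hN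
    calc C3 * Real.log N ^ M ≤ C3 * (1 / C3 * (N : ℝ) ^ ε) :=
          mul_le_mul_of_nonneg_left hN hC30.le
      _ = (N : ℝ) ^ ε := by field_simp
  have hNq : ∀ᶠ N : ℕ in atTop, 2 * (c / Real.log (1 + b)) * Real.log N ≤ (N : ℝ) := by
    have h1 := (Real.isLittleO_log_id_atTop).bound
      (show (0 : ℝ) < 1 / (2 * (c / Real.log (1 + b))) by positivity)
    have h2 := tendsto_natCast_atTop_atTop (R := ℝ) |>.eventually h1
    filter_upwards [h2, eventually_ge_atTop 1] with N hN hN1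
    have hN' : (1 : ℝ) ≤ N := by exact_mod_cast hN1
    simp only [id] at hN
    rw [Real.norm_of_nonneg (Real.log_nonneg hN'), Real.norm_of_nonneg (by linarith : (0 : ℝ) ≤ N)]
      at hN
    calc 2 * (c / Real.log (1 + b)) * Real.log N
        ≤ 2 * (c / Real.log (1 + b)) * (1 / (2 * (c / Real.log (1 + b))) * (N : ℝ)) :=
          mul_le_mul_of_nonneg_left hN (by positivity)
      _ = (N : ℝ) := by field_simp
  filter_upwards [hlo, hNq, hqt.eventually_ge_atTop (C2 + 2), hqt.eventually_ge_atTop 2,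
    hu.eventually_ge_atTop 1, eventually_ge_atTop 1] with N h1 h2 h3 h4 h5 h6
  set u := ub b r N with hudef
  set L := Real.logb (1 + b : ℝ) N with hLdef
  set q := ⌊(1 - ε) * u⌋₊ with hq
  have hN1 : (1 : ℝ) ≤ N := by exact_mod_cast h6
  have hN0 : (0 : ℝ) < N := by linarith
  have hlogN : 0 ≤ Real.log N := Real.log_nonneg hN1
  have hLlog : L * Real.log (1 + b) = Real.log N := by
    rw [hLdef, Real.logb, div_mul_cancel₀ _ hlB.ne']
  have hL0 : 0 ≤ L := by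
    rw [hLdef]; exact Real.logb_nonneg hB1 hN1
  have hu0 : 0 ≤ u := by linarith
  have hupow : u ^ (r - 1) = c * L := by
    rw [hudef]
    unfold ub
    rw [← Real.rpow_natCast, ← Real.rpow_mul (by positivity), hr1', one_div,
      inv_mul_cancel₀ hr1.ne', Real.rpow_one]
  have hqle : (q : ℝ) ≤ (1 - ε) * u := Nat.floor_le (by positivity)
  have hqgt : (1 - ε) * u < (q : ℝ) + 1 := Nat.lt_floor_add_one _
  have hqu : (q : ℝ) ≤ u := hqle.trans (by nlinarith)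
  have hq1 : (1 : ℝ) ≤ q := by linarith
  have hqN : 1 ≤ q := by exact_mod_cast hq1
  have hqC2 : C2 ≤ q := by linarith
  have huL : u ≤ c * L := by
    rw [← hupow]
    calc u = u ^ 1 := (pow_one _).symm
      _ ≤ u ^ (r - 1) := pow_le_pow_right₀ h5 (by omega)
  have huN : u ≤ c / Real.log (1 + b) * Real.log N := by
    refine huL.trans (le_of_eq ?_)
    rw [← hLlog]; field_simp
  set n := N / q with hn
  have hqn : q * n ≤ N := Nat.mul_div_le N q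
  have h2q : 2 * (q : ℝ) ≤ N := by
    refine le_trans ?_ h2
    nlinarith
  have hnge : (N : ℝ) / (2 * q) ≤ n := by
    have h7 : N < q * (n + 1) := by
      have := Nat.lt_mul_div_succ N (show 0 < q by omega)
      exact this
    have h8 : (N : ℝ) < q * (n + 1) := by exact_mod_cast h7
    rw [div_le_iff₀ (by positivity)]
    nlinarith
  have hnN : (n : ℝ) ≤ N := by
    have : n ≤ N := Nat.div_le_self N q
    exact_mod_cast this
  refine ⟨n, hqn, ?_⟩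
  clear_value n q L u M C3 C2 C1
  have hlam1 : (1 : ℝ) ≤ (q : ℝ) ^ (r + 1) := one_le_pow₀ hq1
  have hLq : L ≤ C1 * (q : ℝ) ^ (r - 1) := by
    have h7 : u ≤ 2 / (1 - ε) * q := by
      rw [div_mul_eq_mul_div, le_div_iff₀ h1ε]
      linarith
    have h8 : c * L ≤ (2 / (1 - ε) * q) ^ (r - 1) := by
      rw [← hupow]; exact pow_le_pow_left₀ hu0 h7 _
    rw [hC1, div_mul_eq_mul_div, le_div_iff₀ hc0, ← mul_pow]
    linarith
  refine exists_par hb hr hqN ((q : ℝ) ^ (r + 1)) hlam1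
    (levels_le hr hq1 hN0 hnN hlB hLlog hLq (hC2 ▸ hqC2)) ?_
  have hDle := degree_le hr hε h1ε hc hL0 hupow hqle
  have hBD : ((1 + b : ℝ) ^ ((q - 1).choose (r - 1))) ^ (r + 1) ≤ (N : ℝ) ^ (1 - ε) := by
    have e1 : ((1 + b : ℝ) ^ ((q - 1).choose (r - 1))) ^ (r + 1)
        = (1 + b : ℝ) ^ ((((q - 1).choose (r - 1) : ℕ) : ℝ) * (r + 1)) := by
      rw [← pow_mul, ← Real.rpow_natCast]
      congr 1
      push_cast
      ring
    have e2 : (N : ℝ) ^ (1 - ε) = (1 + b : ℝ) ^ ((1 - ε) * L) := by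
      rw [hLdef, mul_comm, Real.rpow_mul hB0.le, Real.rpow_logb hB0 (by linarith) hN0]
    rw [e1, e2]
    exact Real.rpow_le_rpow_of_exponent_le hB1.le hDle
  refine le_trans ?_ hnge
  rw [le_div_iff₀ (by positivity)]
  exact size_le (K := c / Real.log (1 + b) * Real.log N) (C := C3 * Real.log N ^ M) hM hq1 hN0
    hB0 (hqu.trans huN) (by rw [hC3, mul_pow]; ring) hBD h1

end Pool.Agent.Y418.BG.Num
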